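import Pool.Agent.Y853.EM.Sym

set_option autoImplicit false

/-! The Moebius and the Liouville function: splitting off squares. The arithmetic lemmas follow
`Pool.Agent.H534R2.BH.lam_eq` and `SG.moebius_sq_eq`. -/

namespace Pool.Agent.Y853.EM

open Finset

noncomputable def muc (n : ℕ) : ℂ := ((ArithmeticFunction.moebius n : ℤ) : ℂ)

noncomputable def lic (n : ℕ) : ℂ := ((ArithmeticFunction.liouville n : ℤ) : ℂ)

theorem muc_conj (n : ℕ) : (starRingEnd ℂ) (muc n) = muc n := by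
  unfold muc
  exact map_intCast (starRingEnd ℂ) _

theorem mu_two : Mu2 muc := by
  intro m
  unfold od muc
  split_ifs with h
  · have h1 : Nat.Coprime 2 m := Nat.coprime_two_left.2 h
    rw [ArithmeticFunction.isMultiplicative_moebius.map_mul_of_coprime h1]
    rw [ArithmeticFunction.moebius_apply_prime Nat.prime_two]
    push_cast
    ring
  · rw [Nat.not_odd_iff_even] at h
    obtain ⟨k, hk⟩ := h
    rw [ArithmeticFunction.moebius_eq_zero_of_not_squarefree]
    · simp
    · intro hs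
      have := hs 2 ⟨k, by rw [hk]; ring⟩
      rw [Nat.isUnit_iff] at this
      omega

theorem la_two : La2 lic := by
  intro m
  unfold lic
  rw [ArithmeticFunction.liouville_apply_mul]
  have h : ArithmeticFunction.liouville 2 = -1 := by
    rw [ArithmeticFunction.liouville_apply (by norm_num),
      ArithmeticFunction.cardFactors_apply_prime Nat.prime_two, pow_one]
  rw [h]
  push_cast
  ring

theorem key {n a b : ℕ} (hn : n ≠ 0) (hab : b ^ 2 * a = n) (ha : Squarefree a) (d : ℕ) :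
    d ^ 2 ∣ n ↔ d ∣ b := by
  have hb0 : b ≠ 0 := by rintro rfl; apply hn; rw [← hab]; simp
  have ha0 : a ≠ 0 := by rintro rfl; apply hn; rw [← hab]; simp
  constructor
  · intro h
    have hd0 : d ≠ 0 := by
      rintro rfl
      rw [zero_pow two_ne_zero, zero_dvd_iff] at h
      exact hn h
    rw [← Nat.factorization_le_iff_dvd (pow_ne_zero _ hd0) hn] at h
    rw [← Nat.factorization_le_iff_dvd hd0 hb0]
    intro p
    have h1 := h p
    rw [← hab, Nat.factorization_mul (pow_ne_zero _ hb0) ha0, Nat.factorization_pow,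
      Nat.factorization_pow] at h1
    have h2 := ha.natFactorization_le_one p
    simp only [Finsupp.coe_smul, Finsupp.coe_add, Pi.add_apply, Pi.smul_apply, smul_eq_mul] at h1
    omega
  · intro h
    rw [← hab]
    exact Dvd.dvd.mul_right (pow_dvd_pow_of_dvd h 2) a

theorem filt {n a b R : ℕ} (hn : n ∈ Icc 1 R) (hab : b ^ 2 * a = n) (ha : Squarefree a) :
    (Icc 1 R).filter (fun d => d ^ 2 ∣ n) = b.divisors := by
  rw [mem_Icc] at hn
  have hn0 : n ≠ 0 := by omega
  have hb0 : b ≠ 0 := by rintro rfl; apply hn0; rw [← hab]; simp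
  ext d
  simp only [mem_filter, mem_Icc, Nat.mem_divisors, key hn0 hab ha]
  constructor
  · rintro ⟨-, h⟩; exact ⟨h, hb0⟩
  · rintro ⟨h, -⟩
    refine ⟨⟨Nat.pos_of_dvd_of_pos h (Nat.pos_of_ne_zero hb0), ?_⟩, h⟩
    have h3 : d ≤ b := Nat.le_of_dvd (Nat.pos_of_ne_zero hb0) h
    have h4 : b ∣ n := by rw [← hab]; exact Dvd.dvd.mul_right (dvd_pow_self b two_ne_zero) a
    exact (h3.trans (Nat.le_of_dvd (Nat.pos_of_ne_zero hn0) h4)).trans hn.2

theorem la_sum (R n : ℕ) (hn : n ∈ Icc 1 R) :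
    lic n = ∑ d ∈ Icc 1 R, if d ^ 2 ∣ n then 1 * muc (n / d ^ 2) else 0 := by
  obtain ⟨a, b, hab, ha⟩ := Nat.sq_mul_squarefree n
  have hn1 : n ≠ 0 := by rw [mem_Icc] at hn; omega
  have hb0 : b ≠ 0 := by rintro rfl; apply hn1; rw [← hab]; simp
  rw [← sum_filter, filt hn hab ha, sum_eq_single b]
  · have hdiv : n / b ^ 2 = a := by
      rw [← hab]
      exact Nat.mul_div_cancel_left a (by positivity)
    rw [hdiv, one_mul]
    unfold lic muc
    rw [ArithmeticFunction.liouville_apply hn1, ArithmeticFunction.moebius_apply_of_squarefree ha, ← hab,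
      ArithmeticFunction.cardFactors_mul (pow_ne_zero _ hb0) ha.ne_zero,
      ArithmeticFunction.cardFactors_pow, pow_add, pow_mul]
    norm_num
  · intro d hd hdb
    rw [Nat.mem_divisors] at hd
    obtain ⟨⟨e, he⟩, -⟩ := hd
    have hd0 : d ≠ 0 := by rintro rfl; apply hb0; rw [he]; simp
    have h1 : n / d ^ 2 = e ^ 2 * a := by
      rw [← hab, he, mul_pow, mul_assoc]
      exact Nat.mul_div_cancel_left _ (by positivity)
    rw [h1, one_mul]
    unfold muc
    rw [ArithmeticFunction.moebius_eq_zero_of_not_squarefree]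
    · simp
    · intro hs
      have := hs e ⟨a, by ring⟩
      rw [Nat.isUnit_iff] at this
      apply hdb
      rw [he, this, mul_one]
  · intro h
    exact absurd (Nat.mem_divisors.2 ⟨dvd_rfl, hb0⟩) h

theorem mu_sum (R n : ℕ) (hn : n ∈ Icc 1 R) :
    muc n = ∑ d ∈ Icc 1 R, if d ^ 2 ∣ n then muc d * lic (n / d ^ 2) else 0 := by
  obtain ⟨a, b, hab, ha⟩ := Nat.sq_mul_squarefree n
  have hn1 : n ≠ 0 := by rw [mem_Icc] at hn; omega
  have hb0 : b ≠ 0 := by rintro rfl; apply hn1; rw [← hab]; simp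
  rw [← sum_filter, filt hn hab ha]
  have h1 : ∀ d ∈ b.divisors, muc d * lic (n / d ^ 2) = muc d * lic n := by
    intro d hd
    rw [Nat.mem_divisors] at hd
    obtain ⟨⟨e, he⟩, -⟩ := hd
    have hd0 : d ≠ 0 := by rintro rfl; apply hb0; rw [he]; simp
    have h1 : n / d ^ 2 = e ^ 2 * a := by
      rw [← hab, he, mul_pow, mul_assoc]
      exact Nat.mul_div_cancel_left _ (by positivity)
    have h2 : n = d * d * (e ^ 2 * a) := by rw [← hab, he]; ring
    congr 1
    rw [h1]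
    conv_rhs => rw [h2]
    unfold lic
    rw [ArithmeticFunction.liouville_apply_mul (d * d), ArithmeticFunction.liouville_apply_mul d]
    have h3 : ArithmeticFunction.liouville d * ArithmeticFunction.liouville d = 1 := by
      rw [ArithmeticFunction.liouville_apply hd0, ← pow_add, ← two_mul, pow_mul]
      norm_num
    rw [h3, one_mul]
  rw [sum_congr rfl h1, ← sum_mul]
  have h2 : (∑ d ∈ b.divisors, (ArithmeticFunction.moebius d : ℤ)) = if b = 1 then 1 else 0 := by
    have := congrArg (fun f => f b) ArithmeticFunction.moebius_mul_coe_zeta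
    simp only [ArithmeticFunction.coe_mul_zeta_apply, ArithmeticFunction.one_apply] at this
    exact this
  have h2' : (∑ d ∈ b.divisors, muc d) = if b = 1 then 1 else 0 := by
    have := congrArg (fun z : ℤ => (z : ℂ)) h2
    push_cast at this
    exact this
  rw [h2']
  split_ifs with hb
  · subst hb
    rw [one_pow, one_mul] at hab
    subst hab
    rw [one_mul]
    unfold muc lic
    rw [ArithmeticFunction.moebius_apply_of_squarefree ha, ArithmeticFunction.liouville_apply hn1]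
  · rw [zero_mul]
    unfold muc
    rw [ArithmeticFunction.moebius_eq_zero_of_not_squarefree]
    · simp
    · intro hs
      have := hs b (by rw [← hab, ← sq]; exact dvd_mul_right _ _)
      exact hb (Nat.isUnit_iff.mp this)

theorem sq_split {a b h : ℕ → ℂ}
    (hab : ∀ R n, n ∈ Icc 1 R → a n = ∑ d ∈ Icc 1 R, if d ^ 2 ∣ n then h d * b (n / d ^ 2) else 0)
    (R : ℕ) (x : ℝ) :
    S a R x = ∑ d ∈ Icc 1 R, h d * S b (R / d ^ 2) ((d : ℝ) ^ 2 * x) := by
  unfold S
  have h1 : ∀ n ∈ Icc 1 R, a n * Complex.exp (2 * Real.pi * Complex.I * n * x) =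
      ∑ d ∈ Icc 1 R, if d ^ 2 ∣ n then h d * b (n / d ^ 2) *
        Complex.exp (2 * Real.pi * Complex.I * n * x) else 0 := by
    intro n hn
    rw [hab R n hn, sum_mul]
    refine sum_congr rfl fun d _ => ?_
    split_ifs
    · rfl
    · rw [zero_mul]
  rw [sum_congr rfl h1, sum_comm]
  refine sum_congr rfl fun d hd => ?_
  rw [mem_Icc] at hd
  have hd2 : 0 < d ^ 2 := pow_pos (by omega) 2
  rw [← sum_filter, mul_sum]
  symm
  refine sum_bij' (fun m _ => d ^ 2 * m) (fun n _ => n / d ^ 2) ?_ ?_ ?_ ?_ ?_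
  · intro m hm
    rw [mem_Icc] at hm
    rw [mem_filter, mem_Icc]
    refine ⟨⟨?_, ?_⟩, Dvd.intro _ rfl⟩
    · exact Nat.one_le_iff_ne_zero.mpr (Nat.mul_ne_zero hd2.ne' (by omega))
    · calc d ^ 2 * m ≤ d ^ 2 * (R / d ^ 2) := Nat.mul_le_mul_left _ hm.2
        _ ≤ R := Nat.mul_div_le _ _
  · intro n hn
    rw [mem_filter, mem_Icc] at hn
    obtain ⟨⟨h1, h2⟩, c, hc⟩ := hn
    rw [mem_Icc]
    refine ⟨?_, Nat.div_le_div_right h2⟩
    rw [hc, Nat.mul_div_cancel_left _ hd2]
    rcases Nat.eq_zero_or_pos c with h | h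
    · rw [h, mul_zero] at hc; omega
    · exact h
  · intro m _
    exact Nat.mul_div_cancel_left _ hd2
  · intro n hn
    rw [mem_filter] at hn
    exact Nat.mul_div_cancel' hn.2
  · intro m _
    rw [Nat.mul_div_cancel_left _ hd2, ← mul_assoc]
    congr 2
    push_cast
    ring

/-- growth bounds pass through -/
theorem sq_growth {a b h : ℕ → ℂ} (hh : ∀ d, ‖h d‖ ≤ 1)
    (hab : ∀ R n, n ∈ Icc 1 R → a n = ∑ d ∈ Icc 1 R, if d ^ 2 ∣ n then h d * b (n / d ^ 2) else 0)
    {β : ℝ} (hβ : 1 / 2 < β) :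
    ∃ Z : ℝ, 0 ≤ Z ∧ ∀ C : ℝ, 0 ≤ C → (∀ (R : ℕ) (x : ℝ), ‖S b R x‖ ≤ C * (R : ℝ) ^ β) →
      ∀ (R : ℕ) (x : ℝ), ‖S a R x‖ ≤ Z * C * (R : ℝ) ^ β := by
  have hsum : Summable (fun d : ℕ => 1 / (d : ℝ) ^ (2 * β)) :=
    Real.summable_one_div_nat_rpow.2 (by linarith)
  refine ⟨∑' d : ℕ, 1 / (d : ℝ) ^ (2 * β), tsum_nonneg fun d => by positivity, fun C hC hb R x => ?_⟩
  rw [sq_split hab]
  refine (norm_sum_le _ _).trans ?_
  calc ∑ d ∈ Icc 1 R, ‖h d * S b (R / d ^ 2) ((d : ℝ) ^ 2 * x)‖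
      ≤ ∑ d ∈ Icc 1 R, (1 / (d : ℝ) ^ (2 * β)) * (C * (R : ℝ) ^ β) := by
        refine sum_le_sum fun d hd => ?_
        rw [mem_Icc] at hd
        have hd0 : (0 : ℝ) < d := by exact_mod_cast hd.1
        rw [norm_mul]
        have h1 : ((R / d ^ 2 : ℕ) : ℝ) ^ β ≤ (1 / (d : ℝ) ^ (2 * β)) * (R : ℝ) ^ β := by
          have h2 : ((R / d ^ 2 : ℕ) : ℝ) ≤ (R : ℝ) / (d : ℝ) ^ 2 := by
            have := Nat.cast_div_le (α := ℝ) (m := R) (n := d ^ 2)
            push_cast at this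
            exact this
          calc ((R / d ^ 2 : ℕ) : ℝ) ^ β ≤ ((R : ℝ) / (d : ℝ) ^ 2) ^ β :=
                Real.rpow_le_rpow (Nat.cast_nonneg _) h2 (by linarith)
            _ = _ := by
                rw [Real.div_rpow (Nat.cast_nonneg _) (by positivity), ← Real.rpow_natCast (d : ℝ) 2,
                  ← Real.rpow_mul hd0.le, div_eq_mul_one_div, mul_comm]
                norm_num
        calc ‖h d‖ * ‖S b (R / d ^ 2) ((d : ℝ) ^ 2 * x)‖ ≤ 1 * (C * ((R / d ^ 2 : ℕ) : ℝ) ^ β) :=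
              mul_le_mul (hh d) (hb _ _) (norm_nonneg _) (by norm_num)
          _ ≤ 1 * (C * ((1 / (d : ℝ) ^ (2 * β)) * (R : ℝ) ^ β)) := by gcongr
          _ = _ := by ring
    _ = (∑ d ∈ Icc 1 R, 1 / (d : ℝ) ^ (2 * β)) * (C * (R : ℝ) ^ β) := by rw [sum_mul]
    _ ≤ (∑' d : ℕ, 1 / (d : ℝ) ^ (2 * β)) * (C * (R : ℝ) ^ β) := by
        gcongr
        exact hsum.sum_le_tsum _ fun d _ => by positivity
    _ = _ := by ring

/-- one-sided bounds for the Liouville function -/
theorem la_one_two {c : ℕ → ℂ} (h2 : La2 c) {b C : ℝ} (hb : 0 < b) (hC : 0 ≤ C) (w : ℂ)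
    (h : ∀ (R : ℕ) (x : ℝ), (w * S c R x).re ≤ C * (R : ℝ) ^ b) (R : ℕ) :
    ∀ x : ℝ, |(w * S c R x).re| ≤ (1 + (2 : ℝ) ^ (-b)) * kap b * C * (R : ℝ) ^ b := by
  have hod : ∀ (R : ℕ) (x : ℝ), (w * S (od c) R x).re ≤ (1 + (2 : ℝ) ^ (-b)) * C * (R : ℝ) ^ b := by
    intro R x
    have h4 : S (od c) R x = S c R x + S c (R / 2) (2 * x) := by rw [la_eq h2]; ring
    rw [h4, mul_add, Complex.add_re]
    have h5 := h R x
    have h6 := h (R / 2) (2 * x)
    have h7 := mul_le_mul_of_nonneg_left (half_rpow hb.le R) hC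
    calc (w * S c R x).re + (w * S c (R / 2) (2 * x)).re
        ≤ C * (R : ℝ) ^ b + C * ((2 : ℝ) ^ (-b) * (R : ℝ) ^ b) := by linarith
      _ = _ := by ring
  induction R using Nat.strong_induction_on with
  | _ R ih =>
    intro x
    rcases Nat.eq_zero_or_pos R with h0 | h0
    · subst h0
      rw [S_zero, mul_zero, Complex.zero_re, abs_zero]
      have := kap_pos hb
      positivity
    · have h3 := ih (R / 2) (Nat.div_lt_self h0 (by norm_num)) (2 * x)
      have h8 := od_two (hod R) x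
      rw [la_eq h2, mul_sub, Complex.sub_re]
      refine (abs_sub _ _).trans ?_
      have hk := kap_pos hb
      have h6 := mul_le_mul_of_nonneg_left (half_rpow hb.le R)
        (show 0 ≤ (1 + (2 : ℝ) ^ (-b)) * kap b * C by positivity)
      calc |(w * S (od c) R x).re| + |(w * S c (R / 2) (2 * x)).re|
          ≤ (1 + (2 : ℝ) ^ (-b)) * C * (R : ℝ) ^ b +
            (1 + (2 : ℝ) ^ (-b)) * kap b * C * ((2 : ℝ) ^ (-b) * (R : ℝ) ^ b) := by linarith
        _ = (1 + (2 : ℝ) ^ (-b)) * (1 + kap b * (2 : ℝ) ^ (-b)) * C * (R : ℝ) ^ b := by ring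
        _ = _ := by rw [kap_eq hb]

end Pool.Agent.Y853.EM
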