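import Pool.Agent.Y853.EM.Re2
import Pool.Agent.Y821.ME.Fin2E

/-!
# Real parts in project ME of helper821: the final inequality

This file follows the files `Fin2C`, `Fin2D`, `Fin2E` of helper821 (`Pool.Agent.Y821.ME`).
-/

set_option autoImplicit false

open Filter Topology MeasureTheory Finset

namespace Pool.Agent.Y853.EM

open Pool.Agent.Y821.ME hiding Mx_chi Mx_cop_all Mx_cop_ev cR_bound cR_ev Mx_ee_all
open Pool.Agent.Y821.ME.Two hiding Mx_chi Mx_cop_all Mx_cop_ev cR_bound cR_ev Mx_ee_all cL_bound inequality_two series_inequality_two main_two HypQ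

section

variable (q : ℕ) [NeZero q]

theorem cL_bound (hch0 : ∀ χ : DirichletCharacter ℂ q, χ.Even → χ.IsPrimitive →
      ∃ B : ℝ, 0 ≤ B ∧ ∀ v : ℝ, 1 ≤ v → ‖Mx (fun n => χ n) v‖ ≤ B * Real.sqrt v) (a : ZMod q) :
    ∃ B : ℝ, ∀ v, 1 ≤ v → ‖Mx (cL q a) v‖ ≤ B * Real.sqrt v := by
  have hBχ : ∀ χ : DirichletCharacter ℂ q, ∃ B : ℝ, (χ.Even ∧ χ.IsPrimitive) → ∀ v, 1 ≤ v →
      ‖Mx (fun n => χ n) v‖ ≤ B * Real.sqrt v := by
    intro χ
    by_cases hp : χ.Even ∧ χ.IsPrimitive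
    · obtain ⟨B, -, hB⟩ := hch0 χ hp.1 hp.2
      exact ⟨B, fun _ => hB⟩
    · exact ⟨0, fun hp' => absurd hp' hp⟩
  choose Bχ hBχ using hBχ
  refine ⟨∑ χ ∈ Ev q, ‖cf q a χ * (DirichletCharacter.rootNumber χ)⁻¹‖ * Bχ χ⁻¹, fun v hv => ?_⟩
  have h4 : cL q a = fun n : ℕ => ∑ χ ∈ Ev q, cf q a χ * (DirichletCharacter.rootNumber χ)⁻¹ * χ⁻¹ n := rfl
  rw [h4, Mx_sum (Ev q) (fun χ => cf q a χ * (DirichletCharacter.rootNumber χ)⁻¹) (fun χ n => χ⁻¹ n),
    Finset.sum_mul]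
  refine (norm_sum_le _ _).trans (Finset.sum_le_sum fun χ hχ => ?_)
  rw [norm_mul, mul_assoc]
  have hχ' : χ.Even ∧ χ.IsPrimitive := by
    classical
    unfold Ev at hχ
    exact (Finset.mem_filter.mp hχ).2
  exact mul_le_mul_of_nonneg_left (hBχ χ⁻¹ ⟨even_inv hχ'.1, inv_prim q hχ'.2⟩ v hv) (norm_nonneg _)

theorem inequality_two (htrig : S_TRIG) (hsup : S_SUP) (hlap : S_LAP) (hlim : S_LIM) (hpair : S_PAIR)
    (hq : 2 ≤ q) {C : ℝ} (hch0 : ∀ χ : DirichletCharacter ℂ q, χ.Even → χ.IsPrimitive →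
      ∃ B : ℝ, 0 ≤ B ∧ ∀ v : ℝ, 1 ≤ v → ‖Mx (fun n => χ n) v‖ ≤ B * Real.sqrt v) (a : ZMod q)
    (hB : ∃ B : ℝ, ∀ v, 1 ≤ v → ‖Mx (cR q a) v‖ ≤ B * Real.sqrt v)
    (hv : ∃ v₀ : ℝ, ∀ v, v₀ ≤ v → ‖Mx (cR q a) v‖ ≤ 2 * C * Real.sqrt v) (u : ℝ) :
    ‖aF (Real.log (q / Real.pi) / 2) (Mx (cR q a)) u - aF (Real.log (q / Real.pi) / 2) (Mx (cL q a)) (-u)‖ ≤
      2 * C * Real.exp (-(Real.log (q / Real.pi) / 2) / 2) * Kth := by
  classical
  set lam := Real.log (q / Real.pi) / 2 with hlam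
  have hev : ∀ χ ∈ Ev q, χ.Even ∧ χ.IsPrimitive := fun χ hχ => by
    unfold Ev at hχ
    exact (Finset.mem_filter.mp hχ).2
  have hBχ : ∀ χ : DirichletCharacter ℂ q, ∃ B : ℝ, (χ.Even ∧ χ.IsPrimitive) → ∀ v, 1 ≤ v →
      ‖Mx (fun n => χ n) v‖ ≤ B * Real.sqrt v := by
    intro χ
    by_cases hp : χ.Even ∧ χ.IsPrimitive
    · obtain ⟨B, -, hB⟩ := hch0 χ hp.1 hp.2
      exact ⟨B, fun _ => hB⟩
    · exact ⟨0, fun hp' => absurd hp' hp⟩
  choose Bχ hBχ using hBχ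
  have hP : ∀ χ ∈ Ev q, Pair (aF lam (Mx (fun n => χ n)))
      (fun u => (DirichletCharacter.rootNumber χ)⁻¹ * aF lam (Mx (fun n => χ⁻¹ n)) u) := by
    intro χ hχ
    obtain ⟨he, hp⟩ := hev χ hχ
    refine hpair q χ hq hp he ⟨max (Bχ χ) (Bχ χ⁻¹), fun v hv => ⟨?_, ?_⟩⟩
    · exact (hBχ χ ⟨he, hp⟩ v hv).trans (mul_le_mul_of_nonneg_right (le_max_left _ _) (Real.sqrt_nonneg _))
    · exact (hBχ χ⁻¹ ⟨even_inv he, inv_prim q hp⟩ v hv).trans
        (mul_le_mul_of_nonneg_right (le_max_right _ _) (Real.sqrt_nonneg _))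
  -- the function
  set A : ℝ → ℂ := fun u => ∑ χ ∈ Ev q, cf q a χ * (aF lam (Mx (fun n => χ n)) u -
    (DirichletCharacter.rootNumber χ)⁻¹ * aF lam (Mx (fun n => χ⁻¹ n)) (-u)) with hA
  have hAeq : ∀ u, A u = aF lam (Mx (cR q a)) u - aF lam (Mx (cL q a)) (-u) := by
    intro u
    have h1 := aF_sum hlap (Ev q) (fun χ => cf q a χ) (fun χ n => χ n) lam Bχ
      (fun χ hχ v hv => hBχ χ (hev χ hχ) v hv) u
    have h2 := aF_sum hlap (Ev q) (fun χ => cf q a χ * (DirichletCharacter.rootNumber χ)⁻¹)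
      (fun χ n => χ⁻¹ n) lam (fun χ => Bχ χ⁻¹)
      (fun χ hχ v hv => hBχ χ⁻¹ ⟨even_inv (hev χ hχ).1, inv_prim q (hev χ hχ).2⟩ v hv) (-u)
    have h3 : cR q a = fun n : ℕ => ∑ χ ∈ Ev q, cf q a χ * χ n := rfl
    have h4 : cL q a = fun n : ℕ => ∑ χ ∈ Ev q, cf q a χ * (DirichletCharacter.rootNumber χ)⁻¹ * χ⁻¹ n := rfl
    rw [h3, h4, h1, h2, hA, ← Finset.sum_sub_distrib]
    refine Finset.sum_congr rfl fun χ _ => ?_
    ring
  have hcont : ∀ χ ∈ Ev q, Continuous (fun u => aF lam (Mx (fun n => χ n)) u -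
      (DirichletCharacter.rootNumber χ)⁻¹ * aF lam (Mx (fun n => χ⁻¹ n)) (-u)) := by
    intro χ hχ
    exact (hP χ hχ).ca.sub ((hP χ hχ).cb.comp continuous_neg)
  have hbdd : ∀ χ ∈ Ev q, ∃ B : ℝ, ∀ u, ‖aF lam (Mx (fun n => χ n)) u -
      (DirichletCharacter.rootNumber χ)⁻¹ * aF lam (Mx (fun n => χ⁻¹ n)) (-u)‖ ≤ B := by
    intro χ hχ
    obtain ⟨B, hB⟩ := (hP χ hχ).bd
    refine ⟨B + B, fun u => (norm_sub_le _ _).trans (add_le_add (hB u).1 (hB (-u)).2.2.1)⟩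
  have hdisc : Disc A := Disc_sum (Ev q) (fun χ => cf q a χ) _ hcont hbdd
    (fun χ hχ => htrig _ _ (hP χ hχ))
  have hAc : Continuous A := continuous_finsetSum _ fun χ hχ => continuous_const.mul (hcont χ hχ)
  have hAb : ∃ B : ℝ, ∀ u, ‖A u‖ ≤ B := by
    have hex : ∀ χ : DirichletCharacter ℂ q, ∃ B : ℝ, χ ∈ Ev q → ∀ u, ‖aF lam (Mx (fun n => χ n)) u -
      (DirichletCharacter.rootNumber χ)⁻¹ * aF lam (Mx (fun n => χ⁻¹ n)) (-u)‖ ≤ B := by
      intro χ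
      by_cases hχ : χ ∈ Ev q
      · obtain ⟨B, hB⟩ := hbdd χ hχ
        exact ⟨B, fun _ => hB⟩
      · exact ⟨0, fun h => absurd h hχ⟩
    choose B hB using hex
    refine ⟨∑ χ ∈ Ev q, ‖cf q a χ‖ * B χ, fun u => (norm_sum_le _ _).trans
      (Finset.sum_le_sum fun χ hχ => ?_)⟩
    rw [norm_mul]
    exact mul_le_mul_of_nonneg_left (hB χ hχ u) (norm_nonneg _)
  -- the upper limit
  have hL : ∃ B : ℝ, ∀ v, 1 ≤ v → ‖Mx (cL q a) v‖ ≤ B * Real.sqrt v := by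
    refine ⟨∑ χ ∈ Ev q, ‖cf q a χ * (DirichletCharacter.rootNumber χ)⁻¹‖ * Bχ χ⁻¹, fun v hv => ?_⟩
    have h4 : cL q a = fun n : ℕ => ∑ χ ∈ Ev q, cf q a χ * (DirichletCharacter.rootNumber χ)⁻¹ * χ⁻¹ n := rfl
    rw [h4, Mx_sum (Ev q) (fun χ => cf q a χ * (DirichletCharacter.rootNumber χ)⁻¹) (fun χ n => χ⁻¹ n),
      Finset.sum_mul]
    refine (norm_sum_le _ _).trans (Finset.sum_le_sum fun χ hχ => ?_)
    rw [norm_mul, mul_assoc]
    exact mul_le_mul_of_nonneg_left (hBχ χ⁻¹ ⟨even_inv (hev χ hχ).1, inv_prim q (hev χ hχ).2⟩ v hv) (norm_nonneg _)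
  obtain ⟨BR, hBR⟩ := hB
  obtain ⟨v₀, hv₀⟩ := hv
  obtain ⟨BL, hBL⟩ := hL
  obtain ⟨-, -, ⟨B', hB'⟩, -⟩ := hlap lam BL (Mx (cL q a)) (Mx_measurable _) (Mx_lt_one _) hBL
  have hlimsup : ∀ ε : ℝ, 0 < ε → ∀ᶠ u in atTop, ‖A u‖ ≤ 2 * C * Real.exp (-lam / 2) * Kth + ε := by
    intro ε hε
    have h1 := hlim lam BR (2 * C) v₀ (Mx (cR q a)) (Mx_measurable _) (Mx_lt_one _) hBR hv₀ (ε / 2)
      (by positivity)
    have h2 : Tendsto (fun u : ℝ => B' * Real.exp (-u / 2)) atTop (𝓝 (B' * 0)) := by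
      refine Tendsto.const_mul _ ?_
      refine Real.tendsto_exp_atBot.comp ?_
      have h3 : (fun u : ℝ => -u / 2) = fun u => -(u / 2) := by funext u; ring
      rw [h3]
      exact tendsto_neg_atTop_atBot.comp (tendsto_id.atTop_div_const (by norm_num))
    rw [mul_zero] at h2
    have h5 := h2.eventually (gt_mem_nhds (half_pos hε))
    filter_upwards [h1, h5] with u hu1 hu2
    rw [hAeq]
    refine (norm_sub_le _ _).trans ?_
    have h6 := (hB' (-u)).2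
    linarith
  have := hsup A hAc hAb hdisc (2 * C * Real.exp (-lam / 2) * Kth) hlimsup u
  rwa [hAeq] at this

end

/-- the averaged inequality between the two series -/
theorem series_inequality_two (htrig : S_TRIG) (hsup : S_SUP) (hlap : S_LAP) (hlim : S_LIM) (hpair : S_PAIR)
    (hch : S_CH) (hkl : S_KL2) (hser : S_SER) {C : ℝ} (hC : 0 ≤ C)
    {p l : ℕ} [NeZero (p ^ (2 * l))] (h : HypR C p (2 * l)) (hp : p.Prime) (hp2 : p ≠ 2) (hl : 1 ≤ l)
    (w : (ZMod (p ^ (2 * l)))ˣ → ℝ) (hw0 : ∀ b, 0 ≤ w b) (hw1 : ∑ b, w b = 1)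
    (TR TL : ℕ → ℂ)
    (hTR : TR = fun n => ∑ b, (w b : ℂ) *
      cR (p ^ (2 * l)) ((b ^ 2 : (ZMod (p ^ (2 * l)))ˣ) : ZMod (p ^ (2 * l))) n)
    (hTL : TL = fun n => ∑ b, (w b : ℂ) *
      cL (p ^ (2 * l)) ((b ^ 2 : (ZMod (p ^ (2 * l)))ˣ) : ZMod (p ^ (2 * l))) n)
    (lam U : ℝ) (hlam : lam = Real.log ((p ^ (2 * l) : ℕ) / Real.pi) / 2) :
    ‖(Real.exp (U / 2) : ℂ) *
        ∑' n : ℕ, mu (n + 1) * TR (n + 1) * (VR ((n + 1 : ℕ) * Real.exp (lam + U)) : ℝ) -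
      (Real.exp (-U / 2) : ℂ) *
        ∑' n : ℕ, mu (n + 1) * TL (n + 1) * (VL ((n + 1 : ℕ) * Real.exp (lam - U)) : ℝ)‖ ≤
      5 * (2 * C * Real.exp (-lam / 2) * Kth) ∧ (∀ n, ‖TR n‖ ≤ 2) ∧ (∀ n, ‖TL n‖ ≤ 2) := by
  have hch0 := fun (χ : DirichletCharacter ℂ (p ^ (2 * l))) (he : χ.Even) (hχ : χ.IsPrimitive) =>
    Pool.Agent.Y853.EM.Mx_chi hp (show 1 ≤ 2 * l by omega) hC h he hχ
  have hq : 2 ≤ p ^ (2 * l) := by
    calc 2 ≤ p := hp.two_le
      _ = p ^ 1 := (pow_one p).symm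
      _ ≤ p ^ (2 * l) := Nat.pow_le_pow_right hp.pos (by omega)
  choose BR hBR using fun b : (ZMod (p ^ (2 * l)))ˣ => cR_bound (l := l) hch hp hp2 hl hC h (b ^ 2)
  choose BL hBL using fun b : (ZMod (p ^ (2 * l)))ˣ =>
    cL_bound (p ^ (2 * l)) hch0 ((b ^ 2 : (ZMod (p ^ (2 * l)))ˣ) : ZMod (p ^ (2 * l)))
  have hR2 : ∀ n, ‖TR n‖ ≤ 2 := by
    intro n
    rw [hTR]
    refine (norm_sum_le _ _).trans ?_
    calc ∑ b, ‖(w b : ℂ) * cR (p ^ (2 * l)) ((b ^ 2 : (ZMod (p ^ (2 * l)))ˣ) : ZMod (p ^ (2 * l))) n‖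
        ≤ ∑ b, w b * 2 := by
          refine Finset.sum_le_sum fun b _ => ?_
          rw [norm_mul, Complex.norm_real, Real.norm_of_nonneg (hw0 b)]
          exact mul_le_mul_of_nonneg_left ((norm_cR_le hch hp hp2 hl (b ^ 2) n).trans (by norm_num)) (hw0 b)
      _ = 2 := by rw [← Finset.sum_mul, hw1, one_mul]
  have hL2 : ∀ n, ‖TL n‖ ≤ 2 := by
    intro n
    rw [hTL]
    refine (norm_sum_le _ _).trans ?_
    calc ∑ b, ‖(w b : ℂ) * cL (p ^ (2 * l)) ((b ^ 2 : (ZMod (p ^ (2 * l)))ˣ) : ZMod (p ^ (2 * l))) n‖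
        ≤ ∑ b, w b * 2 := by
          refine Finset.sum_le_sum fun b _ => ?_
          rw [norm_mul, Complex.norm_real, Real.norm_of_nonneg (hw0 b)]
          exact mul_le_mul_of_nonneg_left (norm_cL_le hch hkl hp hp2 hl (b ^ 2) n) (hw0 b)
      _ = 2 := by rw [← Finset.sum_mul, hw1, one_mul]
  refine ⟨?_, hR2, hL2⟩
  have hMR : ∀ v, 1 ≤ v → ‖Mx TR v‖ ≤ (∑ b, w b * BR b) * Real.sqrt v := by
    intro v hv
    rw [hTR, Mx_sum univ (fun b => (w b : ℂ))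
      (fun b n => cR (p ^ (2 * l)) ((b ^ 2 : (ZMod (p ^ (2 * l)))ˣ) : ZMod (p ^ (2 * l))) n), Finset.sum_mul]
    refine (norm_sum_le _ _).trans (Finset.sum_le_sum fun b _ => ?_)
    rw [norm_mul, Complex.norm_real, Real.norm_of_nonneg (hw0 b), mul_assoc]
    exact mul_le_mul_of_nonneg_left (hBR b v hv) (hw0 b)
  have hML : ∀ v, 1 ≤ v → ‖Mx TL v‖ ≤ (∑ b, w b * BL b) * Real.sqrt v := by
    intro v hv
    rw [hTL, Mx_sum univ (fun b => (w b : ℂ))
      (fun b n => cL (p ^ (2 * l)) ((b ^ 2 : (ZMod (p ^ (2 * l)))ˣ) : ZMod (p ^ (2 * l))) n), Finset.sum_mul]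
    refine (norm_sum_le _ _).trans (Finset.sum_le_sum fun b _ => ?_)
    rw [norm_mul, Complex.norm_real, Real.norm_of_nonneg (hw0 b), mul_assoc]
    exact mul_le_mul_of_nonneg_left (hBL b v hv) (hw0 b)
  have hA : ∀ u, ‖aF lam (Mx TR) u - aF lam (Mx TL) (-u)‖ ≤ 2 * C * Real.exp (-lam / 2) * Kth := by
    intro u
    have h1 := aF_sum hlap univ (fun b => (w b : ℂ))
      (fun b n => cR (p ^ (2 * l)) ((b ^ 2 : (ZMod (p ^ (2 * l)))ˣ) : ZMod (p ^ (2 * l))) n) lam BR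
      (fun b _ v hv => hBR b v hv) u
    have h2 := aF_sum hlap univ (fun b => (w b : ℂ))
      (fun b n => cL (p ^ (2 * l)) ((b ^ 2 : (ZMod (p ^ (2 * l)))ˣ) : ZMod (p ^ (2 * l))) n) lam BL
      (fun b _ v hv => hBL b v hv) (-u)
    rw [hTR, hTL, h1, h2, ← Finset.sum_sub_distrib]
    refine (norm_sum_le _ _).trans ?_
    calc ∑ b, ‖(w b : ℂ) * aF lam (Mx (cR (p ^ (2 * l)) ((b ^ 2 : (ZMod (p ^ (2 * l)))ˣ) : ZMod (p ^ (2 * l))))) u -
          (w b : ℂ) * aF lam (Mx (cL (p ^ (2 * l)) ((b ^ 2 : (ZMod (p ^ (2 * l)))ˣ) : ZMod (p ^ (2 * l))))) (-u)‖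
        ≤ ∑ b, w b * (2 * C * Real.exp (-lam / 2) * Kth) := by
          refine Finset.sum_le_sum fun b _ => ?_
          rw [← mul_sub, norm_mul, Complex.norm_real, Real.norm_of_nonneg (hw0 b)]
          refine mul_le_mul_of_nonneg_left ?_ (hw0 b)
          rw [hlam]
          exact inequality_two (p ^ (2 * l)) htrig hsup hlap hlim hpair hq hch0 _
            ⟨BR b, hBR b⟩ (cR_ev hch hp hp2 hl hC h (b ^ 2)) u
      _ = _ := by rw [← Finset.sum_mul, hw1, one_mul]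
  have hD := norm_D_le (fun t => aF lam (Mx TR) t - aF lam (Mx TL) (-t)) _ hA (-U)
  rw [D_sub (aF lam (Mx TR)) (fun t => aF lam (Mx TL) (-t))] at hD
  rw [(hser lam _ TR hR2 hMR (-U)).1, (hser lam _ TL hL2 hML (-U)).2] at hD
  rw [neg_neg, sub_neg_eq_add, ← sub_eq_add_neg] at hD
  exact hD

theorem main_two (htrig : S_TRIG) (hsup : S_SUP) (hlap : S_LAP) (hlim : S_LIM) (hvb : S_VB) (hser : S_SER)
    (hpair : S_PAIR) (hch : S_CH) (hkl : S_KL2) (hrz : S_RZ2) (hsf : S_SF2)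
    (p : ℕ) (hp : p.Prime) (hp2 : p ≠ 2) (C : ℝ) :
    ∃ l₀ : ℕ, ∀ l : ℕ, l₀ ≤ l → ∃ a : ℕ, ¬ p ∣ a ∧
      ∃ᶠ R : ℕ in atTop, C * Real.sqrt R < |(F R ((a / (p ^ (2 * l) : ℕ) : ℚ) : ℝ)).re| := by
  classical
  have hfact : Fact p.Prime := ⟨hp⟩
  set C' : ℝ := max C 0 with hC'
  have hC : 0 ≤ C' := le_max_right _ _
  have hpR : (1 : ℝ) ≤ p := by exact_mod_cast hp.one_lt.le
  obtain ⟨N₀, hN₀⟩ := hsf p hp
  obtain ⟨N, hN1, hN2, hN3⟩ := ((big_N2 (10 * C' * Kth + 361) p hp.one_lt.le).and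
    ((eventually_ge_atTop 1).and (eventually_ge_atTop N₀))).exists
  set Sn : Finset ℕ := (Icc (2 * N) (3 * N)).filter (fun m => Squarefree m ∧ m % p = 1) with hSn
  have hcard : (N : ℝ) / (5 * p) ≤ Sn.card := by
    have := hN₀ N hN3
    rw [hSn]
    convert this
  have hN' : (1 : ℝ) ≤ N := by exact_mod_cast hN2
  have hNN : N ≤ N ^ 2 := by nlinarith
  set S : Finset ℤ := Sn.image (fun m : ℕ => (m : ℤ)) with hS
  have hSmem : ∀ m : ℕ, ((m : ℤ) ∈ S ↔ m ∈ Sn) := by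
    intro m
    rw [hS, Finset.mem_image]
    constructor
    · rintro ⟨k, hk, hk'⟩
      have : k = m := by exact_mod_cast hk'
      rwa [← this]
    · intro h
      exact ⟨m, h, rfl⟩
  have hSneg : ∀ m : ℕ, 1 ≤ m → -(m : ℤ) ∉ S := by
    intro m hm h
    rw [hS, Finset.mem_image] at h
    obtain ⟨k, -, hk⟩ := h
    omega
  have hSsub : S ⊆ Gs (100 * N ^ 2) p := by
    intro g hg
    rw [hS, Finset.mem_image] at hg
    obtain ⟨m, hm, rfl⟩ := hg
    rw [hSn, Finset.mem_filter, Finset.mem_Icc] at hm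
    obtain ⟨⟨h1, h2⟩, h3, h4⟩ := hm
    rw [mem_Gs]
    refine ⟨⟨by omega, ?_⟩, ?_, ?_, ?_⟩
    · have : m ≤ 100 * N ^ 2 := by omega
      exact_mod_cast this
    · exact Int.squarefree_natCast.mpr h3
    · intro hd
      have hd' : p ∣ m := by exact_mod_cast hd
      have := Nat.mod_eq_zero_of_dvd hd'
      omega
    · have h5 : ((m : ℤ) : ZMod p) = 1 := by
        have h6 : ((m : ℕ) : ZMod p) = ((1 : ℕ) : ZMod p) := by
          rw [ZMod.natCast_eq_natCast_iff, Nat.ModEq, h4, Nat.mod_eq_of_lt hp.one_lt]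
        push_cast
        push_cast at h6
        exact h6
      rw [h5]
      exact IsSquare.one
  obtain ⟨l₀, hl₀, hall⟩ := hrz (100 * N ^ 2) p hp2 S (by convert hSsub)
  refine ⟨l₀, fun l hl' => ?_⟩
  have hl : 1 ≤ l := hl₀.trans hl'
  obtain ⟨r, hr, w, hw0, hw1, hw⟩ := hall l hl'
  by_contra hcon
  push Not at hcon
  have h : HypR C' p (2 * l) := by
    intro a ha
    filter_upwards [hcon a ha] with R hR
    exact hR.trans (mul_le_mul_of_nonneg_right (le_max_left _ _) (Real.sqrt_nonneg _))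
  set TR : ℕ → ℂ := fun n => ∑ b, (w b : ℂ) *
      cR (p ^ (2 * l)) ((b ^ 2 : (ZMod (p ^ (2 * l)))ˣ) : ZMod (p ^ (2 * l))) n with hTR
  set TL : ℕ → ℂ := fun n => ∑ b, (w b : ℂ) *
      cL (p ^ (2 * l)) ((b ^ 2 : (ZMod (p ^ (2 * l)))ˣ) : ZMod (p ^ (2 * l))) n with hTL
  set lam : ℝ := Real.log ((p ^ (2 * l) : ℕ) / Real.pi) / 2 with hlam
  have hlam0 : 0 ≤ lam := by
    rw [hlam]
    refine div_nonneg (Real.log_nonneg ?_) (by norm_num)
    rw [le_div_iff₀ Real.pi_pos, one_mul]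
    have h1 : 3 ≤ p := by
      have := hp.two_le
      omega
    have h2 : 3 ^ 2 ≤ p ^ (2 * l) := (Nat.pow_le_pow_left h1 2).trans (Nat.pow_le_pow_right hp.pos (by omega))
    have h3 : ((3 ^ 2 : ℕ) : ℝ) ≤ ((p ^ (2 * l) : ℕ) : ℝ) := by exact_mod_cast h2
    have := Real.pi_lt_four
    norm_num at h3 ⊢
    linarith
  set U : ℝ := Real.log (10 * N) + lam with hU
  have hZ : (0 : ℝ) < 10 * N := by linarith
  have hlogZ : 0 ≤ Real.log (10 * N) := Real.log_nonneg (by linarith)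
  obtain ⟨hmain, hTR2, hTL2⟩ := series_inequality_two htrig hsup hlap hlim hpair hch hkl hser hC h hp hp2 hl
    w hw0 hw1 TR TL hTR hTL lam U hlam
  have he1 : Real.exp (lam - U) = 1 / (10 * N) := by
    rw [hU, show lam - (Real.log (10 * N) + lam) = -Real.log (10 * N) by ring, Real.exp_neg, Real.exp_log hZ,
      one_div]
  rw [he1] at hmain
  -- averages of Kloosterman sums
  have hp0 : (p : ℂ) ^ l ≠ 0 := pow_ne_zero _ (Nat.cast_ne_zero.mpr hp.ne_zero)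
  have havg : ∀ (g : ℤ) (g' : (ZMod (p ^ (2 * l)))ˣ), (g' : ZMod (p ^ (2 * l))) = (g : ZMod (p ^ (2 * l))) →
      Squarefree g → ¬ (p : ℤ) ∣ g → -((100 * N ^ 2 : ℕ) : ℤ) ≤ g → g ≤ ((100 * N ^ 2 : ℕ) : ℤ) →
      ∑ b, (w b : ℂ) * Kl (p ^ (2 * l)) ((b ^ 2 * g'⁻¹ : (ZMod (p ^ (2 * l)))ˣ) : ZMod (p ^ (2 * l))) =
        2 * (p : ℂ) ^ l * (if g ∈ S then ((ArithmeticFunction.moebius g.natAbs : ℤ) : ℂ) / 2 else 0) := by
    intro g g' hg' hg1 hg2 hg3 hg4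
    by_cases hsq : IsSquare (g : ZMod p)
    · have hgG : g ∈ Gs (100 * N ^ 2) p := by
        rw [mem_Gs]
        exact ⟨⟨hg3, hg4⟩, hg1, hg2, hsq⟩
      have h1 : ∀ b : (ZMod (p ^ (2 * l)))ˣ,
          Kl (p ^ (2 * l)) ((b ^ 2 * g'⁻¹ : (ZMod (p ^ (2 * l)))ˣ) : ZMod (p ^ (2 * l))) =
          2 * (p : ℂ) ^ l * ((ee (p ^ (2 * l)) (2 * b * r g)).re : ℂ) := fun b =>
        Kl_div hkl hp hp2 hl b (r g) g' (by rw [hg']; exact hr g hgG)
      simp only [h1]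
      have h2 := hw g hgG
      have h3 : ((∑ b, w b * (ee (p ^ (2 * l)) (2 * (b : ZMod (p ^ (2 * l))) * r g)).re : ℝ) : ℂ) =
          (if g ∈ S then ((ArithmeticFunction.moebius g.natAbs : ℤ) : ℂ) / 2 else 0) := by
        rw [h2]
        split_ifs <;> push_cast <;> rfl
      rw [← h3, Complex.ofReal_sum, Finset.mul_sum]
      refine Finset.sum_congr rfl fun b _ => ?_
      rw [Complex.ofReal_mul]
      ring
    · have hgS : g ∉ S := by
        intro hgS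
        exact hsq (mem_Gs.mp (hSsub hgS)).2.2.2
      rw [if_neg hgS, mul_zero]
      refine Finset.sum_eq_zero fun b _ => ?_
      rw [(hkl p l hp hp2 hl).2.1 _ (not_square hl g g' b hg' hsq), mul_zero]
  -- small coefficients
  have hsmall : ∀ m : ℕ, 1 ≤ m → m ≤ 100 * N ^ 2 → mu m * TL m = if m ∈ Sn then (1 / 2 : ℂ) else 0 := by
    intro m hm1 hm2
    by_cases hsqf : Squarefree m
    · by_cases hpm : p ∣ m
      · have h1 : m ∉ Sn := by
          intro hm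
          rw [hSn, Finset.mem_filter] at hm
          have := Nat.mod_eq_zero_of_dvd hpm
          omega
        have h2 : TL m = 0 := by
          rw [hTL]
          refine Finset.sum_eq_zero fun b _ => ?_
          have h3 := not_isUnit_nat (l := l) hp hl m hpm
          have h4 : cL (p ^ (2 * l)) ((b ^ 2 : (ZMod (p ^ (2 * l)))ˣ) : ZMod (p ^ (2 * l))) m = 0 := by
            unfold cL
            refine Finset.sum_eq_zero fun χ _ => ?_
            rw [MulChar.map_nonunit _ h3, mul_zero]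
          rw [h4, mul_zero]
        rw [h2, if_neg h1, mul_zero]
      · obtain ⟨m', hm'⟩ := isUnit_nat (l := l) hp m hpm
        have hpZ : ¬ (p : ℤ) ∣ (m : ℤ) := fun hd => hpm (by exact_mod_cast hd)
        have hsqZ : Squarefree (m : ℤ) := Int.squarefree_natCast.mpr hsqf
        have hmle : (m : ℤ) ≤ ((100 * N ^ 2 : ℕ) : ℤ) := by exact_mod_cast hm2
        have e1 := havg (m : ℤ) m' (by rw [hm']; push_cast; rfl) hsqZ hpZ (by omega) hmle
        have e2 := havg (-(m : ℤ)) (-m') (by rw [Units.val_neg, hm']; push_cast; rfl)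
          (by
            have := hsqZ
            rwa [← Int.squarefree_natAbs, Int.natAbs_neg, Int.squarefree_natAbs]) (by
            rwa [Int.dvd_neg]) (by omega) (by omega)
        have h1 : TL m = (if m ∈ Sn then ((ArithmeticFunction.moebius m : ℤ) : ℂ) / 2 else 0) := by
          have h2 : TL m = ∑ b, (w b : ℂ) *
              ((Kl (p ^ (2 * l)) ((b ^ 2 * m'⁻¹ : (ZMod (p ^ (2 * l)))ˣ) : ZMod (p ^ (2 * l))) +
                Kl (p ^ (2 * l)) ((b ^ 2 * (-m')⁻¹ : (ZMod (p ^ (2 * l)))ˣ) : ZMod (p ^ (2 * l)))) /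
                (2 * (p : ℂ) ^ l)) := by
            rw [hTL]
            refine Finset.sum_congr rfl fun b _ => ?_
            congr 1
            have h3 := cL_eq hch hp hp2 hl (b ^ 2) m' m hm'
            rw [h3]
            have h4 : -((b ^ 2 * m'⁻¹ : (ZMod (p ^ (2 * l)))ˣ) : ZMod (p ^ (2 * l))) =
                ((b ^ 2 * (-m')⁻¹ : (ZMod (p ^ (2 * l)))ˣ) : ZMod (p ^ (2 * l))) := by
              rw [← Units.val_neg]
              congr 1
              rw [inv_neg, mul_neg]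
            rw [h4]
          rw [h2]
          have h5 : ∑ b, (w b : ℂ) *
              ((Kl (p ^ (2 * l)) ((b ^ 2 * m'⁻¹ : (ZMod (p ^ (2 * l)))ˣ) : ZMod (p ^ (2 * l))) +
                Kl (p ^ (2 * l)) ((b ^ 2 * (-m')⁻¹ : (ZMod (p ^ (2 * l)))ˣ) : ZMod (p ^ (2 * l)))) /
                (2 * (p : ℂ) ^ l)) =
              (∑ b, (w b : ℂ) * Kl (p ^ (2 * l)) ((b ^ 2 * m'⁻¹ : (ZMod (p ^ (2 * l)))ˣ) : ZMod (p ^ (2 * l))) +
              ∑ b, (w b : ℂ) * Kl (p ^ (2 * l)) ((b ^ 2 * (-m')⁻¹ : (ZMod (p ^ (2 * l)))ˣ) :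
                ZMod (p ^ (2 * l)))) / (2 * (p : ℂ) ^ l) := by
            rw [← Finset.sum_add_distrib, Finset.sum_div]
            refine Finset.sum_congr rfl fun b _ => ?_
            ring
          rw [h5, e1, e2, if_neg (hSneg m hm1), mul_zero, add_zero, Int.natAbs_natCast]
          have h6 : ((m : ℤ) ∈ S) = (m ∈ Sn) := propext (hSmem m)
          simp only [h6]
          field_simp
        rw [h1]
        by_cases hmS : m ∈ Sn
        · rw [if_pos hmS, if_pos hmS]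
          unfold mu
          have h3 : (ArithmeticFunction.moebius m : ℤ) ^ 2 = 1 :=
            ArithmeticFunction.moebius_sq_eq_one_of_squarefree hsqf
          have h4 : ((ArithmeticFunction.moebius m : ℤ) : ℂ) * ((ArithmeticFunction.moebius m : ℤ) : ℂ) = 1 := by
            rw [← sq]; exact_mod_cast h3
          rw [← mul_div_assoc, h4]
        · rw [if_neg hmS, if_neg hmS]
          simp
    · have h1 : mu m = 0 := by
        unfold mu
        rw [ArithmeticFunction.moebius_eq_zero_of_not_squarefree hsqf]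
        simp
      have h2 : m ∉ Sn := fun hm => hsqf (Finset.mem_filter.mp hm).2.1
      rw [h1, if_neg h2, zero_mul]
  have hlow := left_lower hvb N hN2 Sn (fun m hm => by
    rw [hSn, Finset.mem_filter, Finset.mem_Icc] at hm
    exact hm.1) TL hTL2 hsmall
  have hXU : 1 ≤ Real.exp (lam + U) := Real.one_le_exp (by rw [hU]; linarith)
  have hright := right_upper hvb (Real.exp (lam + U)) hXU TR hTR2
  set SR := ∑' n : ℕ, mu (n + 1) * TR (n + 1) * ((VR ((n + 1 : ℕ) * Real.exp (lam + U)) : ℝ) : ℂ) with hSR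
  set SL := ∑' n : ℕ, mu (n + 1) * TL (n + 1) * ((VL ((n + 1 : ℕ) * (1 / (10 * N : ℝ))) : ℝ) : ℂ) with hSL
  -- multiply by exp (U/2)
  have hexp : (0 : ℝ) < Real.exp (U / 2) := Real.exp_pos _
  have h1 : Real.exp (-U / 2) * ‖SL‖ ≤ 5 * (2 * C' * Real.exp (-lam / 2) * Kth) + Real.exp (U / 2) * ‖SR‖ := by
    have e1 : ‖(Real.exp (-U / 2) : ℂ) * SL‖ = Real.exp (-U / 2) * ‖SL‖ := by
      rw [norm_mul, Complex.norm_real, Real.norm_of_nonneg (Real.exp_pos _).le]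
    have e2 : ‖(Real.exp (U / 2) : ℂ) * SR‖ = Real.exp (U / 2) * ‖SR‖ := by
      rw [norm_mul, Complex.norm_real, Real.norm_of_nonneg (Real.exp_pos _).le]
    have e3 := norm_sub_norm_le ((Real.exp (-U / 2) : ℂ) * SL) ((Real.exp (U / 2) : ℂ) * SR)
    rw [norm_sub_rev] at e3
    rw [e1, e2] at e3
    linarith
  have h2 : ‖SL‖ ≤ Real.exp (U / 2) * (5 * (2 * C' * Real.exp (-lam / 2) * Kth)) +
      Real.exp U * ‖SR‖ := by
    have e1 : Real.exp (U / 2) * (Real.exp (-U / 2) * ‖SL‖) = ‖SL‖ := by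
      rw [← mul_assoc, ← Real.exp_add, show U / 2 + -U / 2 = 0 by ring, Real.exp_zero, one_mul]
    have e2 : Real.exp (U / 2) * (Real.exp (U / 2) * ‖SR‖) = Real.exp U * ‖SR‖ := by
      rw [← mul_assoc, ← Real.exp_add, show U / 2 + U / 2 = U by ring]
    have e3 := mul_le_mul_of_nonneg_left h1 hexp.le
    rw [e1, mul_add, e2] at e3
    exact e3
  have h3 : Real.exp (U / 2) * (5 * (2 * C' * Real.exp (-lam / 2) * Kth)) =
      10 * C' * Kth * Real.sqrt (10 * N) := by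
    have e1 : Real.exp (U / 2) = Real.sqrt (10 * N) * Real.exp (lam / 2) := by
      rw [hU, add_div, Real.exp_add]
      congr 1
      rw [Real.sqrt_eq_rpow, Real.rpow_def_of_pos hZ]
      congr 1
      ring
    have e2 : Real.exp (lam / 2) * Real.exp (-lam / 2) = 1 := by
      rw [← Real.exp_add, show lam / 2 + -lam / 2 = 0 by ring, Real.exp_zero]
    rw [e1]
    calc Real.sqrt (10 * N) * Real.exp (lam / 2) * (5 * (2 * C' * Real.exp (-lam / 2) * Kth))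
        = (Real.exp (lam / 2) * Real.exp (-lam / 2)) * (10 * C' * Kth * Real.sqrt (10 * N)) := by ring
      _ = _ := by rw [e2, one_mul]
  have h4 : Real.exp U * ‖SR‖ ≤ 360 := by
    have e0 : Real.exp U ≤ Real.exp (lam + U) := Real.exp_le_exp.mpr (by linarith)
    have e1 : Real.exp (lam + U) ≤ Real.exp (lam + U) ^ 3 := by
      nlinarith [sq_nonneg (Real.exp (lam + U)), mul_self_nonneg (Real.exp (lam + U) - 1)]
    have hpos : 0 < Real.exp (lam + U) := Real.exp_pos _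
    calc Real.exp U * ‖SR‖ ≤ Real.exp (lam + U) ^ 3 * (360 / Real.exp (lam + U) ^ 3) :=
          mul_le_mul (e0.trans e1) hright (norm_nonneg _) (by positivity)
      _ = 360 := by field_simp
  have hfin : (Sn.card : ℝ) / 5 - 1 ≤ 10 * C' * Kth * Real.sqrt (10 * N) + 360 := by
    linarith
  have h5 : (1 : ℝ) ≤ Real.sqrt (10 * N) := by
    rw [Real.one_le_sqrt]; linarith
  have h6 : (10 * C' * Kth + 361) * Real.sqrt (10 * N) + 1 < N / (25 * p) := hN1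
  have h7 : (N : ℝ) / (25 * p) = (N / (5 * p)) / 5 := by
    rw [div_div]
    congr 1
    ring
  nlinarith

end Pool.Agent.Y853.EM
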