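import Pool.Agent.Y853.EM.Ker
import Pool.Agent.Y853.EM.Lio
import Pool.Agent.Y853.EM.Re3
import Pool.Agent.Y821.ME.Top2

set_option autoImplicit false

/-! One-sided sup norms of the Moebius exponential sum. -/

open Filter Topology

namespace Pool.Agent.Y853.EM

theorem main_re (p : ℕ) (hp : p.Prime) (hp2 : p ≠ 2) (C : ℝ) :
    ∃ l₀ : ℕ, ∀ l : ℕ, l₀ ≤ l → ∃ a : ℕ, ¬ p ∣ a ∧
      ∃ᶠ R : ℕ in atTop, C * Real.sqrt R < |(S muc R ((a / (p ^ (2 * l) : ℕ) : ℚ) : ℝ)).re| :=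
  main_two Pool.Agent.Y821.ME.trig Pool.Agent.Y821.ME.sup Pool.Agent.Y821.ME.lap Pool.Agent.Y821.ME.lim
    Pool.Agent.Y821.ME.vb Pool.Agent.Y821.ME.ser (Pool.Agent.Y821.ME.pairM Pool.Agent.Y821.ME.lap
    Pool.Agent.Y821.ME.lfn) Pool.Agent.Y821.ME.ch Pool.Agent.Y821.ME.kl2
    (Pool.Agent.Y821.ME.rz2 Pool.Agent.Y821.ME.li2) Pool.Agent.Y821.ME.sf2 p hp hp2 C

theorem S_add_int (c : ℕ → ℂ) (R : ℕ) (x : ℝ) (k : ℤ) : S c R (x + k) = S c R x := by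
  unfold S
  refine Finset.sum_congr rfl fun n _ => ?_
  congr 1
  have h : (2 * Real.pi * Complex.I * n * ((x + k : ℝ) : ℂ) : ℂ) =
      2 * Real.pi * Complex.I * n * x + ((n * k : ℤ) : ℂ) * (2 * Real.pi * Complex.I) := by
    push_cast
    ring
  rw [h, Complex.exp_add, Complex.exp_int_mul_two_pi_mul_I, mul_one]

theorem S_fract (c : ℕ → ℂ) (R : ℕ) (x : ℝ) : S c R x = S c R (Int.fract x) := by
  have := S_add_int c R (Int.fract x) ⌊x⌋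
  rw [Int.fract_add_floor] at this
  exact this

theorem norm_S_le {c : ℕ → ℂ} (hc : ∀ n, ‖c n‖ ≤ 1) (R : ℕ) (x : ℝ) : ‖S c R x‖ ≤ R := by
  unfold S
  refine (norm_sum_le _ _).trans ?_
  calc ∑ n ∈ Finset.Icc 1 R, ‖c n * Complex.exp (2 * Real.pi * Complex.I * n * x)‖
      ≤ ∑ n ∈ Finset.Icc 1 R, (1 : ℝ) := by
        refine Finset.sum_le_sum fun n _ => ?_
        rw [norm_mul]
        have : ‖Complex.exp (2 * Real.pi * Complex.I * n * x)‖ = 1 := by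
          rw [show (2 * Real.pi * Complex.I * n * x : ℂ) = ((2 * Real.pi * n * x : ℝ) : ℂ) * Complex.I by
            push_cast; ring]
          exact Complex.norm_exp_ofReal_mul_I _
        rw [this, mul_one]
        exact hc n
    _ = R := by simp

theorem muc_norm (n : ℕ) : ‖muc n‖ ≤ 1 := by
  unfold muc
  rw [Complex.norm_intCast]
  exact_mod_cast ArithmeticFunction.abs_moebius_le_one

/-- from all large `R` to all `R` -/
theorem all_R {P : ℕ → ℝ → ℝ} {D C : ℝ} (hD : 0 ≤ D) (ht : ∀ R x, P R x ≤ D * R)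
    {A : Set ℝ} (h : ∀ᶠ R : ℕ in atTop, ∀ x ∈ A, P R x ≤ C * Real.sqrt R) :
    ∃ C' : ℝ, 0 ≤ C' ∧ ∀ (R : ℕ), ∀ x ∈ A, P R x ≤ C' * (R : ℝ) ^ (1 / 2 : ℝ) := by
  obtain ⟨N, hN⟩ := eventually_atTop.mp h
  refine ⟨max |C| (D * Real.sqrt N), (abs_nonneg _).trans (le_max_left _ _), fun R x hx => ?_⟩
  rw [← Real.sqrt_eq_rpow]
  rcases le_or_gt N R with h1 | h1
  · exact (hN R h1 x hx).trans (mul_le_mul_of_nonneg_right ((le_abs_self C).trans (le_max_left _ _))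
      (Real.sqrt_nonneg _))
  · calc P R x ≤ D * R := ht R x
      _ = D * (Real.sqrt R * Real.sqrt R) := by rw [Real.mul_self_sqrt (Nat.cast_nonneg R)]
      _ ≤ D * (Real.sqrt N * Real.sqrt R) := by gcongr
      _ = D * Real.sqrt N * Real.sqrt R := by ring
      _ ≤ _ := mul_le_mul_of_nonneg_right (le_max_right _ _) (Real.sqrt_nonneg _)

theorem no_re {K : ℝ} (h : ∀ (R : ℕ) (x : ℝ), |(S muc R x).re| ≤ K * (R : ℝ) ^ (1 / 2 : ℝ)) : False := by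
  obtain ⟨l₀, hl⟩ := main_re 3 Nat.prime_three (by norm_num) K
  obtain ⟨a, -, ha⟩ := hl l₀ le_rfl
  obtain ⟨R, hR⟩ := ha.exists
  have := h R ((a / (3 ^ (2 * l₀) : ℕ) : ℚ) : ℝ)
  rw [← Real.sqrt_eq_rpow] at this
  linarith

theorem omega_up (w : ℂ) (hw : w.re ≠ 0) (C : ℝ) :
    ∃ᶠ R : ℕ in atTop, ∃ x ∈ Set.Icc (0 : ℝ) 1, C * Real.sqrt R < (w * S muc R x).re := by
  by_contra hcon
  rw [not_frequently] at hcon
  have h1 : ∀ᶠ R : ℕ in atTop, ∀ x ∈ Set.Icc (0 : ℝ) 1, (w * S muc R x).re ≤ C * Real.sqrt R := by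
    filter_upwards [hcon] with R hR x hx
    by_contra h2
    exact hR ⟨x, hx, lt_of_not_ge h2⟩
  obtain ⟨C', hC', h2⟩ := all_R (P := fun R x => (w * S muc R x).re) (D := ‖w‖) (norm_nonneg _)
    (fun R x => by
      refine (Complex.re_le_norm _).trans ?_
      rw [norm_mul]
      exact mul_le_mul_of_nonneg_left (norm_S_le muc_norm R x) (norm_nonneg _)) h1
  have h3 : ∀ (R : ℕ) (x : ℝ), (w * S muc R x).re ≤ C' * (R : ℝ) ^ (1 / 2 : ℝ) := by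
    intro R x
    rw [S_fract]
    exact h2 R _ ⟨Int.fract_nonneg x, (Int.fract_lt_one x).le⟩
  have h4 := one_two mu_two (show (0 : ℝ) < 1 / 2 by norm_num) hC' w h3
  obtain ⟨K, hK⟩ : ∃ K : ℝ, K = (1 + (2 : ℝ) ^ (-(1 / 2 : ℝ))) * kap (1 / 2) * C' := ⟨_, rfl⟩
  rw [← hK] at h4
  refine no_re (K := K / |w.re|) fun R x => ?_
  have h5 := h4 R x
  have h6 := h4 R (-x)
  rw [S_neg muc_conj] at h6
  have h7 : (w * S muc R x).re + (w * (starRingEnd ℂ) (S muc R x)).re = 2 * (w.re * (S muc R x).re) := by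
    simp only [Complex.mul_re, Complex.conj_re, Complex.conj_im]
    ring
  have h8 : 2 * (|w.re| * |(S muc R x).re|) ≤ 2 * (K * (R : ℝ) ^ (1 / 2 : ℝ)) := by
    rw [← abs_mul, ← abs_of_pos (show (0 : ℝ) < 2 by norm_num), ← abs_mul, abs_of_pos (show (0 : ℝ) < 2 by norm_num), ← h7]
    refine (abs_add_le _ _).trans ?_
    linarith
  rw [div_mul_eq_mul_div, le_div_iff₀ (abs_pos.2 hw)]
  linarith

theorem omega_quarter (C : ℝ) :
    ∃ᶠ R : ℕ in atTop, ∃ x ∈ Set.Icc (0 : ℝ) (1 / 4), C * Real.sqrt R < ‖S muc R x‖ := by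
  by_contra hcon
  rw [not_frequently] at hcon
  have h1 : ∀ᶠ R : ℕ in atTop, ∀ x ∈ Set.Icc (0 : ℝ) (1 / 4), ‖S muc R x‖ ≤ C * Real.sqrt R := by
    filter_upwards [hcon] with R hR x hx
    by_contra h2
    exact hR ⟨x, hx, lt_of_not_ge h2⟩
  obtain ⟨C', hC', h2⟩ := all_R (P := fun R x => ‖S muc R x‖) (D := 1) zero_le_one
    (fun R x => by rw [one_mul]; exact norm_S_le muc_norm R x) h1
  have h4 := all_of_quarter mu_two muc_conj (show (0 : ℝ) < 1 / 2 by norm_num) hC'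
    (fun R x hx0 hx1 => h2 R x ⟨hx0, hx1⟩)
  exact no_re fun R x => (Complex.abs_re_le_norm _).trans (h4 R x)

/-! ### Exponents -/

def Al (c : ℕ → ℂ) (a : ℝ) : Prop := ∀ ε : ℝ, 0 < ε → ∃ C : ℝ, ∀ (R : ℕ) (x : ℝ),
  ‖S c R x‖ ≤ C * (R : ℝ) ^ (a + ε)

def Up (w : ℂ) (c : ℕ → ℂ) (a : ℝ) : Prop := ∀ ε : ℝ, 0 < ε → ∃ C : ℝ, ∀ (R : ℕ) (x : ℝ),
  (w * S c R x).re ≤ C * (R : ℝ) ^ (a + ε)

def Qu (c : ℕ → ℂ) (a : ℝ) : Prop := ∀ ε : ℝ, 0 < ε → ∃ C : ℝ, ∀ (R : ℕ) (x : ℝ), 0 ≤ x → x ≤ 1 / 4 →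
  ‖S c R x‖ ≤ C * (R : ℝ) ^ (a + ε)

theorem up_of_al {c : ℕ → ℂ} {a : ℝ} (w : ℂ) (h : Al c a) : Up w c a := by
  intro ε hε
  obtain ⟨C, hC⟩ := h ε hε
  refine ⟨‖w‖ * C, fun R x => (Complex.re_le_norm _).trans ?_⟩
  rw [norm_mul, mul_assoc]
  exact mul_le_mul_of_nonneg_left (hC R x) (norm_nonneg _)

theorem al_of_two {c : ℕ → ℂ} {a : ℝ} {w : ℂ} (hw : w ≠ 0)
    (h : ∀ ε : ℝ, 0 < ε → ∃ K : ℝ, ∀ (R : ℕ) (x : ℝ), |(w * S c R x).re| ≤ K * (R : ℝ) ^ (a + ε)) :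
    Al c a := by
  intro ε hε
  obtain ⟨K, hK⟩ := h (ε / 2) (by linarith)
  have hw0 : 0 < ‖w‖ := norm_pos_iff.2 hw
  refine ⟨(3 + 2 * ((2 : ℝ) ^ (ε / 2) / (ε / 2))) * |K| / ‖w‖, fun R x => ?_⟩
  rcases Nat.eq_zero_or_pos R with h0 | h0
  · subst h0
    rw [S_zero, norm_zero]
    positivity
  · have hR1 : (1 : ℝ) ≤ R := by exact_mod_cast h0
    have h1 := norm_of_re c R w (M := |K| * (R : ℝ) ^ (a + ε / 2)) (fun x => (hK R x).trans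
      (mul_le_mul_of_nonneg_right (le_abs_self K) (by positivity))) x
    have h2 : Real.log (2 * R : ℕ) ≤ (2 : ℝ) ^ (ε / 2) / (ε / 2) * (R : ℝ) ^ (ε / 2) := by
      have := Real.log_natCast_le_rpow_div (2 * R) (show 0 < ε / 2 by linarith)
      refine this.trans (le_of_eq ?_)
      push_cast
      rw [Real.mul_rpow (by norm_num) (by positivity)]
      ring
    have h3 : 1 ≤ (R : ℝ) ^ (ε / 2) := Real.one_le_rpow hR1 (by linarith)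
    have h4 : 3 + 2 * Real.log (2 * R : ℕ) ≤
        (3 + 2 * ((2 : ℝ) ^ (ε / 2) / (ε / 2))) * (R : ℝ) ^ (ε / 2) := by nlinarith
    have h5 : 0 ≤ |K| * (R : ℝ) ^ (a + ε / 2) := by positivity
    have h6 : (R : ℝ) ^ (ε / 2) * (R : ℝ) ^ (a + ε / 2) = (R : ℝ) ^ (a + ε) := by
      rw [← Real.rpow_add (by linarith)]
      congr 1
      ring
    rw [div_mul_eq_mul_div, le_div_iff₀ hw0, mul_comm]
    calc ‖w‖ * ‖S c R x‖ ≤ (3 + 2 * Real.log (2 * R : ℕ)) * (|K| * (R : ℝ) ^ (a + ε / 2)) := h1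
      _ ≤ ((3 + 2 * ((2 : ℝ) ^ (ε / 2) / (ε / 2))) * (R : ℝ) ^ (ε / 2)) * (|K| * (R : ℝ) ^ (a + ε / 2)) :=
          mul_le_mul_of_nonneg_right h4 h5
      _ = (3 + 2 * ((2 : ℝ) ^ (ε / 2) / (ε / 2))) * |K| * ((R : ℝ) ^ (ε / 2) * (R : ℝ) ^ (a + ε / 2)) := by
          ring
      _ = _ := by rw [h6]

theorem al_of_up {c : ℕ → ℂ} (h2 : Mu2 c) {a : ℝ} (ha : 0 ≤ a) {w : ℂ} (hw : w ≠ 0) (h : Up w c a) :
    Al c a := by
  refine al_of_two hw fun ε hε => ?_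
  obtain ⟨C, hC⟩ := h ε hε
  exact ⟨_, one_two h2 (show 0 < a + ε by linarith) (abs_nonneg C) w fun R x => (hC R x).trans
    (mul_le_mul_of_nonneg_right (le_abs_self C) (by positivity))⟩

theorem al_of_up_la {c : ℕ → ℂ} (h2 : La2 c) {a : ℝ} (ha : 0 ≤ a) {w : ℂ} (hw : w ≠ 0) (h : Up w c a) :
    Al c a := by
  refine al_of_two hw fun ε hε => ?_
  obtain ⟨C, hC⟩ := h ε hε
  exact ⟨_, la_one_two h2 (show 0 < a + ε by linarith) (abs_nonneg C) w fun R x => (hC R x).trans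
    (mul_le_mul_of_nonneg_right (le_abs_self C) (by positivity))⟩

theorem al_of_qu {c : ℕ → ℂ} (h2 : Mu2 c) (hc : ∀ n, (starRingEnd ℂ) (c n) = c n) {a : ℝ} (ha : 0 ≤ a)
    (h : Qu c a) : Al c a := by
  intro ε hε
  obtain ⟨C, hC⟩ := h ε hε
  exact ⟨_, all_of_quarter h2 hc (show 0 < a + ε by linarith) (abs_nonneg C) fun R x h0 h1 =>
    (hC R x h0 h1).trans (mul_le_mul_of_nonneg_right (le_abs_self C) (by positivity))⟩

theorem al_sq {a b h : ℕ → ℂ} (hh : ∀ d, ‖h d‖ ≤ 1)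
    (hab : ∀ R n, n ∈ Finset.Icc 1 R → a n =
      ∑ d ∈ Finset.Icc 1 R, if d ^ 2 ∣ n then h d * b (n / d ^ 2) else 0)
    {s : ℝ} (hs : 1 / 2 ≤ s) (hb : Al b s) : Al a s := by
  intro ε hε
  obtain ⟨C, hC⟩ := hb ε hε
  obtain ⟨Z, hZ, h1⟩ := sq_growth hh hab (show 1 / 2 < s + ε by linarith)
  exact ⟨_, h1 |C| (abs_nonneg C) fun R x => (hC R x).trans
    (mul_le_mul_of_nonneg_right (le_abs_self C) (by positivity))⟩

theorem tfae (w : ℂ) (hw : w ≠ 0) {a : ℝ} (ha : 1 / 2 ≤ a) :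
    List.TFAE [Al muc a, Up w muc a, Qu muc a, Al lic a, Up w lic a] := by
  tfae_have 1 → 2 := up_of_al w
  tfae_have 2 → 1 := al_of_up mu_two (by linarith) hw
  tfae_have 1 → 3 := fun h ε hε => by
    obtain ⟨C, hC⟩ := h ε hε
    exact ⟨C, fun R x _ _ => hC R x⟩
  tfae_have 3 → 1 := al_of_qu mu_two muc_conj (by linarith)
  tfae_have 1 → 4 := al_sq (h := fun _ => 1) (fun _ => by simp) la_sum ha
  tfae_have 4 → 1 := al_sq muc_norm mu_sum ha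
  tfae_have 4 → 5 := up_of_al w
  tfae_have 5 → 4 := al_of_up_la la_two (by linarith) hw
  tfae_finish

end Pool.Agent.Y853.EM
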