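import Pool.Agent.Y853.EM.Sym

set_option autoImplicit false

/-! From the real part of a trigonometric polynomial `∑_{1 ≤ n ≤ R} c_n e(nx)` to its modulus. -/

namespace Pool.Agent.Y853.EM

open Finset

/-- orthogonality -/
theorem orth {N : ℕ} (hN : 0 < N) (k : ℤ) :
    ∑ j ∈ range N, Complex.exp (2 * Real.pi * Complex.I * k * (j / N)) = if (N : ℤ) ∣ k then (N : ℂ) else 0 := by
  have hN0 : (N : ℂ) ≠ 0 := Nat.cast_ne_zero.mpr hN.ne'
  obtain ⟨z, hz⟩ : ∃ z : ℂ, z = Complex.exp (2 * Real.pi * Complex.I * (k / N)) := ⟨_, rfl⟩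
  have h1 : ∀ j : ℕ, Complex.exp (2 * Real.pi * Complex.I * k * (j / N)) = z ^ j := by
    intro j
    rw [hz, ← Complex.exp_nat_mul]
    congr 1
    ring
  simp only [h1]
  split_ifs with h
  · obtain ⟨m, rfl⟩ := h
    have h2 : z = 1 := by
      rw [hz, show (2 * Real.pi * Complex.I * ((((N : ℤ) * m : ℤ) : ℂ) / N) : ℂ) =
        m * (2 * Real.pi * Complex.I) by push_cast; field_simp]
      exact Complex.exp_int_mul_two_pi_mul_I m
    rw [h2]
    simp
  · have h3 : z ≠ 1 := by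
      intro h4
      rw [hz, Complex.exp_eq_one_iff] at h4
      obtain ⟨m, hm⟩ := h4
      apply h
      have h5 : (k : ℂ) / N = m := by
        have h7 : (2 * Real.pi * Complex.I : ℂ) * ((k : ℂ) / N) = (2 * Real.pi * Complex.I) * m := by
          rw [hm]; ring
        exact mul_left_cancel₀ Complex.two_pi_I_ne_zero h7
      rw [div_eq_iff hN0] at h5
      have h8 : (k : ℤ) = m * N := by exact_mod_cast h5
      exact ⟨m, by rw [h8]; ring⟩
    have h9 : z ^ N = 1 := by
      rw [hz, ← Complex.exp_nat_mul, show ((N : ℂ) * (2 * Real.pi * Complex.I * (k / N)) : ℂ) =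
        k * (2 * Real.pi * Complex.I) by field_simp]
      exact Complex.exp_int_mul_two_pi_mul_I k
    rw [geom_sum_eq h3, h9]
    simp

/-- the kernel -/
noncomputable def K (R : ℕ) (j : ℕ) : ℂ :=
  ∑ m ∈ Icc 1 R, Complex.exp (-(2 * Real.pi * Complex.I * m * (j / (2 * R + 1 : ℕ))))

theorem inversion (c : ℕ → ℂ) (R : ℕ) (w : ℂ) (x : ℝ) :
    w * S c R x = (2 / (2 * R + 1 : ℕ) : ℂ) *
      ∑ j ∈ range (2 * R + 1), (((w * S c R (x + j / (2 * R + 1 : ℕ))).re : ℝ) : ℂ) * K R j := by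
  obtain ⟨N, hN⟩ : ∃ N : ℕ, N = 2 * R + 1 := ⟨_, rfl⟩
  have hNpos : 0 < N := by omega
  have hN0 : (N : ℂ) ≠ 0 := Nat.cast_ne_zero.mpr hNpos.ne'
  unfold K
  rw [← hN]
  -- the real part
  have h1 : ∀ j : ℕ, (((w * S c R (x + j / N)).re : ℝ) : ℂ) =
      ∑ n ∈ Icc 1 R, (w * c n * Complex.exp (2 * Real.pi * Complex.I * n * x) / 2 *
        Complex.exp (2 * Real.pi * Complex.I * n * (j / N)) +
        (starRingEnd ℂ) (w * c n * Complex.exp (2 * Real.pi * Complex.I * n * x)) / 2 *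
        Complex.exp (-(2 * Real.pi * Complex.I * n * (j / N)))) := by
    intro j
    rw [Finset.sum_add_distrib, Complex.re_eq_add_conj]
    unfold S
    rw [add_div]
    congr 1
    · rw [Finset.mul_sum, Finset.sum_div]
      refine Finset.sum_congr rfl fun n _ => ?_
      have e1 : (2 * Real.pi * Complex.I * n * ((x + j / N : ℝ) : ℂ) : ℂ) =
          2 * Real.pi * Complex.I * n * x + 2 * Real.pi * Complex.I * n * (j / N) := by
        push_cast
        ring
      rw [e1, Complex.exp_add]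
      ring
    · rw [Finset.mul_sum, map_sum, Finset.sum_div]
      refine Finset.sum_congr rfl fun n _ => ?_
      have e1 : (2 * Real.pi * Complex.I * n * ((x + j / N : ℝ) : ℂ) : ℂ) =
          2 * Real.pi * Complex.I * n * x + 2 * Real.pi * Complex.I * n * (j / N) := by
        push_cast
        ring
      have e2 : (starRingEnd ℂ) (Complex.exp (2 * Real.pi * Complex.I * n * (j / N))) =
          Complex.exp (-(2 * Real.pi * Complex.I * n * (j / N))) := by
        rw [← Complex.exp_conj]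
        congr 1
        simp only [map_mul, map_div₀, Complex.conj_ofReal, Complex.conj_I, map_ofNat, Complex.conj_natCast]
        ring
      rw [e1, Complex.exp_add, ← mul_assoc, ← mul_assoc, map_mul, e2]
      ring
  simp only [h1]
  have h2 : ∑ j ∈ range N, (∑ n ∈ Icc 1 R, (w * c n * Complex.exp (2 * Real.pi * Complex.I * n * x) / 2 *
        Complex.exp (2 * Real.pi * Complex.I * n * (j / N)) +
        (starRingEnd ℂ) (w * c n * Complex.exp (2 * Real.pi * Complex.I * n * x)) / 2 *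
        Complex.exp (-(2 * Real.pi * Complex.I * n * (j / N))))) *
        ∑ m ∈ Icc 1 R, Complex.exp (-(2 * Real.pi * Complex.I * m * (j / N))) =
      ∑ m ∈ Icc 1 R, ∑ n ∈ Icc 1 R,
        (w * c n * Complex.exp (2 * Real.pi * Complex.I * n * x) / 2 *
          ∑ j ∈ range N, Complex.exp (2 * Real.pi * Complex.I * ((n : ℤ) - m : ℤ) * (j / N)) +
        (starRingEnd ℂ) (w * c n * Complex.exp (2 * Real.pi * Complex.I * n * x)) / 2 *
          ∑ j ∈ range N, Complex.exp (2 * Real.pi * Complex.I * (-((n : ℤ) + m) : ℤ) * (j / N))) := by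
    simp only [Finset.mul_sum, Finset.sum_mul, ← Finset.sum_add_distrib]
    rw [Finset.sum_comm]
    refine Finset.sum_congr rfl fun m _ => ?_
    rw [Finset.sum_comm]
    refine Finset.sum_congr rfl fun n _ => Finset.sum_congr rfl fun j _ => ?_
    have e1 : Complex.exp (2 * Real.pi * Complex.I * ((n : ℤ) - m : ℤ) * (j / N)) =
        Complex.exp (2 * Real.pi * Complex.I * n * (j / N)) *
          Complex.exp (-(2 * Real.pi * Complex.I * m * (j / N))) := by
      rw [← Complex.exp_add]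
      congr 1
      push_cast
      ring
    have e2 : Complex.exp (2 * Real.pi * Complex.I * (-((n : ℤ) + m) : ℤ) * (j / N)) =
        Complex.exp (-(2 * Real.pi * Complex.I * n * (j / N))) *
          Complex.exp (-(2 * Real.pi * Complex.I * m * (j / N))) := by
      rw [← Complex.exp_add]
      congr 1
      push_cast
      ring
    rw [e1, e2]
    ring
  rw [h2]
  have h3 : ∀ m ∈ Icc 1 R, ∑ n ∈ Icc 1 R,
        (w * c n * Complex.exp (2 * Real.pi * Complex.I * n * x) / 2 *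
          ∑ j ∈ range N, Complex.exp (2 * Real.pi * Complex.I * ((n : ℤ) - m : ℤ) * (j / N)) +
        (starRingEnd ℂ) (w * c n * Complex.exp (2 * Real.pi * Complex.I * n * x)) / 2 *
          ∑ j ∈ range N, Complex.exp (2 * Real.pi * Complex.I * (-((n : ℤ) + m) : ℤ) * (j / N))) =
      w * c m * Complex.exp (2 * Real.pi * Complex.I * m * x) / 2 * N := by
    intro m hm
    rw [Finset.mem_Icc] at hm
    rw [Finset.sum_eq_single_of_mem m (Finset.mem_Icc.2 hm)]
    · rw [orth hNpos, orth hNpos, if_pos (by simp), if_neg]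
      · ring
      · rw [Int.dvd_neg]
        intro h
        have := Int.le_of_dvd (by omega) h
        omega
    · intro n hn hnm
      rw [Finset.mem_Icc] at hn
      rw [orth hNpos, orth hNpos, if_neg, if_neg]
      · ring
      · rw [Int.dvd_neg]
        intro h
        have := Int.le_of_dvd (by omega) h
        omega
      · intro h
        obtain ⟨t, ht⟩ := h
        have h5 : t = 0 := by
          by_contra h6
          rcases lt_or_gt_of_ne h6 with h7 | h7
          · have : (N : ℤ) * t ≤ (N : ℤ) * (-1) := mul_le_mul_of_nonneg_left (by omega) (by omega)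
            omega
          · have : (N : ℤ) * 1 ≤ (N : ℤ) * t := mul_le_mul_of_nonneg_left (by omega) (by omega)
            omega
        rw [h5, mul_zero] at ht
        omega
  rw [Finset.sum_congr rfl h3]
  unfold S
  rw [Finset.mul_sum, Finset.mul_sum]
  refine Finset.sum_congr rfl fun m _ => ?_
  field_simp

theorem K_triv (R j : ℕ) : ‖K R j‖ ≤ R := by
  unfold K
  refine (norm_sum_le _ _).trans ?_
  calc ∑ m ∈ Icc 1 R, ‖Complex.exp (-(2 * Real.pi * Complex.I * m * (j / (2 * R + 1 : ℕ))))‖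
      = ∑ m ∈ Icc 1 R, (1 : ℝ) := by
        refine Finset.sum_congr rfl fun m _ => ?_
        rw [show (-(2 * Real.pi * Complex.I * m * (j / (2 * R + 1 : ℕ))) : ℂ) =
          ((-(2 * Real.pi * m * (j / (2 * R + 1 : ℕ))) : ℝ) : ℂ) * Complex.I by push_cast; ring]
        exact Complex.norm_exp_ofReal_mul_I _
    _ = R := by simp
    _ ≤ R := le_rfl

theorem inv_sin {t : ℝ} (h0 : 0 < t) (h1 : t < 1) :
    0 < Real.sin (Real.pi * t) ∧ 1 / Real.sin (Real.pi * t) ≤ (1 / t + 1 / (1 - t)) / 2 := by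
  have hpi := Real.pi_pos
  have hs : 0 < Real.sin (Real.pi * t) := Real.sin_pos_of_pos_of_lt_pi (by positivity) (by nlinarith)
  refine ⟨hs, ?_⟩
  have h1t : 0 < 1 - t := by linarith
  rcases le_total t (1 / 2) with h | h
  · have h2 : 2 / Real.pi * (Real.pi * t) ≤ Real.sin (Real.pi * t) :=
      Real.mul_le_sin (by positivity) (by nlinarith)
    have h3 : 2 / Real.pi * (Real.pi * t) = 2 * t := by field_simp
    rw [h3] at h2
    calc 1 / Real.sin (Real.pi * t) ≤ 1 / (2 * t) := one_div_le_one_div_of_le (by linarith) h2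
      _ = (1 / t) / 2 := by field_simp
      _ ≤ _ := by
          have : 0 < 1 / (1 - t) := by positivity
          linarith
  · have h2 : 2 / Real.pi * (Real.pi * (1 - t)) ≤ Real.sin (Real.pi * (1 - t)) :=
      Real.mul_le_sin (by positivity) (by nlinarith)
    have h3 : 2 / Real.pi * (Real.pi * (1 - t)) = 2 * (1 - t) := by field_simp
    have h4 : Real.sin (Real.pi * (1 - t)) = Real.sin (Real.pi * t) := by
      rw [show Real.pi * (1 - t) = Real.pi - Real.pi * t by ring, Real.sin_pi_sub]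
    rw [h3, h4] at h2
    calc 1 / Real.sin (Real.pi * t) ≤ 1 / (2 * (1 - t)) := one_div_le_one_div_of_le (by linarith) h2
      _ = (1 / (1 - t)) / 2 := by field_simp
      _ ≤ _ := by
          have : 0 < 1 / t := by positivity
          linarith

theorem K_bd {R j : ℕ} (hj : 1 ≤ j) (hj2 : j ≤ 2 * R) :
    ‖K R j‖ ≤ ((2 * R + 1 : ℕ) : ℝ) / 2 * (1 / (j : ℝ) + 1 / ((2 * R + 1 : ℕ) - j : ℝ)) := by
  obtain ⟨N, hN⟩ : ∃ N : ℕ, N = 2 * R + 1 := ⟨_, rfl⟩
  unfold K
  rw [← hN]
  have hN0 : (0 : ℝ) < N := by exact_mod_cast (show 0 < N by omega)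
  have hj0 : (0 : ℝ) < j := by exact_mod_cast hj
  have hjN : (j : ℝ) < N := by exact_mod_cast (show j < N by omega)
  obtain ⟨t, ht⟩ : ∃ t : ℝ, t = j / N := ⟨_, rfl⟩
  have ht0 : 0 < t := by rw [ht]; positivity
  have ht1 : t < 1 := by rw [ht, div_lt_one hN0]; exact hjN
  obtain ⟨hs, hs2⟩ := inv_sin ht0 ht1
  obtain ⟨z, hz⟩ : ∃ z : ℂ, z = Complex.exp (Complex.I * ((-(2 * Real.pi * t) : ℝ) : ℂ)) := ⟨_, rfl⟩
  have hz1 : ‖z‖ = 1 := by
    rw [hz, mul_comm]
    exact Complex.norm_exp_ofReal_mul_I _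
  have hzs : ‖z - 1‖ = 2 * Real.sin (Real.pi * t) := by
    rw [hz, Complex.norm_exp_I_mul_ofReal_sub_one, Real.norm_eq_abs,
      show -(2 * Real.pi * t) / 2 = -(Real.pi * t) by ring, Real.sin_neg, mul_neg, abs_neg,
      abs_of_pos (by linarith)]
  have hzne : z ≠ 1 := by
    intro h
    rw [h, sub_self, norm_zero] at hzs
    linarith
  have h1 : ∀ m : ℕ, Complex.exp (-(2 * Real.pi * Complex.I * m * (j / N))) = z ^ m := by
    intro m
    rw [hz, ← Complex.exp_nat_mul, ht]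
    congr 1
    push_cast
    ring
  simp only [h1]
  have h2 : ∑ m ∈ Icc 1 R, z ^ m = z * ((z ^ R - 1) / (z - 1)) := by
    have e1 : Icc 1 R = Ico 1 (R + 1) := by
      ext m
      rw [Finset.mem_Icc, Finset.mem_Ico]
      omega
    rw [e1, Finset.sum_Ico_eq_sum_range, Nat.add_sub_cancel, ← geom_sum_eq hzne, Finset.mul_sum]
    exact Finset.sum_congr rfl fun i _ => by rw [pow_add, pow_one]
  rw [h2, norm_mul, hz1, one_mul, norm_div, hzs]
  have h3 : ‖z ^ R - 1‖ ≤ 2 := by
    refine (norm_sub_le _ _).trans ?_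
    rw [norm_pow, hz1, one_pow, norm_one]
    norm_num
  calc ‖z ^ R - 1‖ / (2 * Real.sin (Real.pi * t)) ≤ 2 / (2 * Real.sin (Real.pi * t)) := by gcongr
    _ = 1 / Real.sin (Real.pi * t) := by field_simp
    _ ≤ (1 / t + 1 / (1 - t)) / 2 := hs2
    _ = (N : ℝ) / 2 * (1 / (j : ℝ) + 1 / ((N : ℝ) - j)) := by
        have : (N : ℝ) - j ≠ 0 := by linarith
        have e1 : 1 - t = ((N : ℝ) - j) / N := by rw [ht]; field_simp
        rw [e1, ht]
        field_simp

theorem K_sum (R : ℕ) : ∑ j ∈ range (2 * R + 1), ‖K R j‖ ≤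
    R + (2 * R + 1 : ℕ) * (1 + Real.log (2 * R : ℕ)) := by
  rw [Finset.sum_range_succ']
  have h0 := K_triv R 0
  have h1 : ∑ i ∈ range (2 * R), ‖K R (i + 1)‖ ≤ ∑ i ∈ range (2 * R),
      (((2 * R + 1 : ℕ) : ℝ) / 2 * (1 / ((i + 1 : ℕ) : ℝ)) +
        ((2 * R + 1 : ℕ) : ℝ) / 2 * (1 / ((2 * R - 1 - i + 1 : ℕ) : ℝ))) := by
    refine Finset.sum_le_sum fun i hi => ?_
    rw [Finset.mem_range] at hi
    have h2 := K_bd (R := R) (j := i + 1) (by omega) (by omega)
    refine h2.trans (le_of_eq ?_)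
    rw [← mul_add]
    congr 3
    have : 2 * R - 1 - i + 1 = 2 * R + 1 - (i + 1) := by omega
    rw [this, Nat.cast_sub (by omega)]
  have h3 : ∑ i ∈ range (2 * R), ((2 * R + 1 : ℕ) : ℝ) / 2 * (1 / ((2 * R - 1 - i + 1 : ℕ) : ℝ)) =
      ∑ i ∈ range (2 * R), ((2 * R + 1 : ℕ) : ℝ) / 2 * (1 / ((i + 1 : ℕ) : ℝ)) :=
    Finset.sum_range_reflect (fun i => ((2 * R + 1 : ℕ) : ℝ) / 2 * (1 / ((i + 1 : ℕ) : ℝ))) (2 * R)
  rw [Finset.sum_add_distrib, h3, ← Finset.mul_sum] at h1
  have h4 : ∑ i ∈ range (2 * R), (1 / ((i + 1 : ℕ) : ℝ)) ≤ 1 + Real.log (2 * R : ℕ) := by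
    have := harmonic_le_one_add_log (2 * R)
    refine le_trans (le_of_eq ?_) this
    unfold harmonic
    push_cast
    exact Finset.sum_congr rfl fun i _ => by rw [one_div]
  have h5 : (0 : ℝ) ≤ ((2 * R + 1 : ℕ) : ℝ) / 2 := by positivity
  have h6 := mul_le_mul_of_nonneg_left h4 h5
  linarith

/-- the modulus from the real part -/
theorem norm_of_re (c : ℕ → ℂ) (R : ℕ) (w : ℂ) {M : ℝ} (h : ∀ x : ℝ, |(w * S c R x).re| ≤ M) (x : ℝ) :
    ‖w‖ * ‖S c R x‖ ≤ (3 + 2 * Real.log (2 * R : ℕ)) * M := by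
  have hM : 0 ≤ M := (abs_nonneg _).trans (h 0)
  have hN0 : (0 : ℝ) < ((2 * R + 1 : ℕ) : ℝ) := by positivity
  rw [← norm_mul, inversion c R w x, norm_mul, norm_div, Complex.norm_ofNat, Complex.norm_natCast]
  have h1 : ‖∑ j ∈ range (2 * R + 1), (((w * S c R (x + j / (2 * R + 1 : ℕ))).re : ℝ) : ℂ) * K R j‖ ≤
      M * (R + (2 * R + 1 : ℕ) * (1 + Real.log (2 * R : ℕ))) := by
    refine (norm_sum_le _ _).trans ?_
    calc ∑ j ∈ range (2 * R + 1), ‖(((w * S c R (x + j / (2 * R + 1 : ℕ))).re : ℝ) : ℂ) * K R j‖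
        ≤ ∑ j ∈ range (2 * R + 1), M * ‖K R j‖ := by
          refine Finset.sum_le_sum fun j _ => ?_
          rw [norm_mul, Complex.norm_real, Real.norm_eq_abs]
          exact mul_le_mul_of_nonneg_right (h _) (norm_nonneg _)
      _ = M * ∑ j ∈ range (2 * R + 1), ‖K R j‖ := by rw [Finset.mul_sum]
      _ ≤ _ := mul_le_mul_of_nonneg_left (K_sum R) hM
  have hlog : 0 ≤ Real.log (2 * R : ℕ) := Real.log_natCast_nonneg _
  calc 2 / ((2 * R + 1 : ℕ) : ℝ) *
        ‖∑ j ∈ range (2 * R + 1), (((w * S c R (x + j / (2 * R + 1 : ℕ))).re : ℝ) : ℂ) * K R j‖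
      ≤ 2 / ((2 * R + 1 : ℕ) : ℝ) * (M * (R + (2 * R + 1 : ℕ) * (1 + Real.log (2 * R : ℕ)))) := by
        gcongr
    _ = M * (2 * R / ((2 * R + 1 : ℕ) : ℝ) + 2 * (1 + Real.log (2 * R : ℕ))) := by field_simp
    _ ≤ M * (1 + 2 * (1 + Real.log (2 * R : ℕ))) := by
        gcongr
        rw [div_le_one hN0]
        push_cast
        linarith
    _ = _ := by ring

end Pool.Agent.Y853.EM
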