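import Pool.Agent.Y853.EM.Fin

set_option autoImplicit false

/-! One-sided omega results at rational points. -/

open Filter Topology

namespace Pool.Agent.Y853.EM

theorem maj {c : ℕ → ℂ} (h2 : Mu2 c) {A : Set ℝ} (hA2 : ∀ x ∈ A, 2 * x ∈ A) (w : ℂ) {Φ Ψ : ℕ → ℝ}
    (h0 : 0 ≤ Ψ 0) (hΨ : ∀ R : ℕ, 0 < R → Φ R + Ψ (R / 2) ≤ Ψ R)
    (h : ∀ (R : ℕ), ∀ x ∈ A, (w * S c R x).re ≤ Φ R) (R : ℕ) :
    ∀ x ∈ A, (w * S (od c) R x).re ≤ Ψ R := by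
  induction R using Nat.strong_induction_on with
  | _ R ih =>
    intro x hx
    rcases Nat.eq_zero_or_pos R with h3 | h3
    · subst h3
      rw [S_zero, mul_zero, Complex.zero_re]
      exact h0
    · have h4 : S (od c) R x = S c R x + S (od c) (R / 2) (2 * x) := by rw [mu_eq h2]; ring
      rw [h4, mul_add, Complex.add_re]
      have h5 := h R x hx
      have h6 := ih (R / 2) (Nat.div_lt_self h3 (by norm_num)) (2 * x) (hA2 x hx)
      have h7 := hΨ R h3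
      linarith

theorem maj_two {c : ℕ → ℂ} (h2 : Mu2 c) {A : Set ℝ} (hA2 : ∀ x ∈ A, 2 * x ∈ A)
    (hA1 : ∀ x ∈ A, x + 1 / 2 ∈ A) (w : ℂ) {Φ Ψ : ℕ → ℝ}
    (h0 : 0 ≤ Ψ 0) (hΨ : ∀ R : ℕ, 0 < R → Φ R + Ψ (R / 2) ≤ Ψ R)
    (h : ∀ (R : ℕ), ∀ x ∈ A, (w * S c R x).re ≤ Φ R) (R : ℕ) {x : ℝ} (hx : x ∈ A) :
    |(w * S c R x).re| ≤ Ψ R + Ψ (R / 2) := by
  have h1 : ∀ (R : ℕ), ∀ x ∈ A, |(w * S (od c) R x).re| ≤ Ψ R := by
    intro R x hx
    rw [abs_le]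
    refine ⟨?_, maj h2 hA2 w h0 hΨ h R x hx⟩
    have := maj h2 hA2 w h0 hΨ h R _ (hA1 x hx)
    rw [S_od_half, mul_neg, Complex.neg_re] at this
    linarith
  rw [mu_eq h2, mul_sub, Complex.sub_re]
  exact (abs_sub _ _).trans (add_le_add (h1 R x hx) (h1 (R / 2) _ (hA2 x hx)))

theorem kap_maj {b C : ℝ} (hb : 0 < b) (hC : 0 ≤ C) (R : ℕ) :
    C * (R : ℝ) ^ b + kap b * C * ((R / 2 : ℕ) : ℝ) ^ b ≤ kap b * C * (R : ℝ) ^ b := by
  have h6 := mul_le_mul_of_nonneg_left (half_rpow hb.le R) (mul_nonneg (kap_pos hb).le hC)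
  calc C * (R : ℝ) ^ b + kap b * C * ((R / 2 : ℕ) : ℝ) ^ b
      ≤ C * (R : ℝ) ^ b + kap b * C * ((2 : ℝ) ^ (-b) * (R : ℝ) ^ b) := by linarith
    _ = (1 + kap b * (2 : ℝ) ^ (-b)) * C * (R : ℝ) ^ b := by ring
    _ = _ := by rw [kap_eq hb]

/-- the points with denominator `2q` -/
def Pts (q : ℕ) : Set ℝ := {x | ∃ k : ℤ, x = k / (2 * q : ℕ)}

theorem omega_rat (p : ℕ) (hp : p.Prime) (hp2 : p ≠ 2) (w : ℂ) (hw : w.re ≠ 0) (C : ℝ) :
    ∃ l₀ : ℕ, ∀ l : ℕ, l₀ ≤ l → ∃ b : ℕ, b < 2 * p ^ (2 * l) ∧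
      ∃ᶠ R : ℕ in atTop, C * Real.sqrt R < (w * S muc R ((b : ℝ) / (2 * p ^ (2 * l) : ℕ))).re := by
  have hw0 : 0 < |w.re| := abs_pos.2 hw
  obtain ⟨l₀, hl⟩ := main_re p hp hp2 ((2 * (kap (1 / 2) * |C|) + 1) / |w.re|)
  refine ⟨l₀, fun l hl' => ?_⟩
  obtain ⟨a, -, ha⟩ := hl l hl'
  obtain ⟨q, hq⟩ : ∃ q : ℕ, q = p ^ (2 * l) := ⟨_, rfl⟩
  rw [← hq] at ha ⊢
  have hqpos : 0 < q := by rw [hq]; exact pow_pos hp.pos _
  have hq0 : (0 : ℝ) < q := by exact_mod_cast hqpos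
  by_contra hcon
  push Not at hcon
  -- all points
  have h1 : ∀ᶠ R : ℕ in atTop, ∀ b ∈ Finset.range (2 * q),
      (w * S muc R ((b : ℝ) / (2 * q : ℕ))).re ≤ C * Real.sqrt R := by
    rw [eventually_all_finset]
    intro b hb
    exact hcon b (Finset.mem_range.1 hb)
  obtain ⟨N, hN⟩ := eventually_atTop.mp h1
  have hper : ∀ (R : ℕ) (k : ℤ), ∃ b ∈ Finset.range (2 * q),
      S muc R ((k : ℝ) / (2 * q : ℕ)) = S muc R ((b : ℝ) / (2 * q : ℕ)) := by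
    intro R k
    have hpos : (0 : ℤ) < (2 * q : ℕ) := by exact_mod_cast (show 0 < 2 * q by omega)
    refine ⟨(k % (2 * q : ℕ)).toNat, ?_, ?_⟩
    · rw [Finset.mem_range]
      have h3 := Int.emod_lt_of_pos k hpos
      have h4 := Int.emod_nonneg k hpos.ne'
      omega
    · have h4 := Int.emod_nonneg k hpos.ne'
      have h5 : ((k % (2 * q : ℕ)).toNat : ℝ) = ((k % (2 * q : ℕ) : ℤ) : ℝ) := by
        have : (((k % (2 * q : ℕ)).toNat : ℤ)) = k % (2 * q : ℕ) := Int.toNat_of_nonneg h4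
        exact_mod_cast congrArg (fun z : ℤ => (z : ℝ)) this
      have h6 : (k : ℝ) / (2 * q : ℕ) = ((k % (2 * q : ℕ) : ℤ) : ℝ) / (2 * q : ℕ) +
          ((k / (2 * q : ℕ) : ℤ) : ℝ) := by
        have h7 := Int.emod_add_mul_ediv k (2 * q : ℕ)
        have h8 : (k : ℝ) = ((k % (2 * q : ℕ) : ℤ) : ℝ) + ((2 * q : ℕ) : ℝ) * ((k / (2 * q : ℕ) : ℤ) : ℝ) := by
          exact_mod_cast congrArg (fun z : ℤ => (z : ℝ)) h7.symm
        have h9 : ((2 * q : ℕ) : ℝ) ≠ 0 := by positivity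
        nth_rewrite 1 [h8]
        rw [add_div, mul_div_cancel_left₀ _ h9]
      rw [h6, S_add_int, h5]
  obtain ⟨D, hD⟩ : ∃ D : ℝ, D = ‖w‖ * N := ⟨_, rfl⟩
  have hD0 : 0 ≤ D := by rw [hD]; positivity
  have h3 : ∀ (R : ℕ), ∀ x ∈ Pts q, (w * S muc R x).re ≤
      |C| * (R : ℝ) ^ (1 / 2 : ℝ) + D * (R : ℝ) ^ (1 / 4 : ℝ) := by
    rintro R x ⟨k, rfl⟩
    rcases Nat.eq_zero_or_pos R with h0 | h0
    · subst h0
      rw [S_zero, mul_zero, Complex.zero_re]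
      positivity
    have hR1 : (1 : ℝ) ≤ R := by exact_mod_cast h0
    rcases le_or_gt N R with h4 | h4
    · obtain ⟨b, hb, hb2⟩ := hper R k
      rw [hb2]
      have h5 := hN R h4 b hb
      rw [Real.sqrt_eq_rpow] at h5
      have h6 : C * (R : ℝ) ^ (1 / 2 : ℝ) ≤ |C| * (R : ℝ) ^ (1 / 2 : ℝ) :=
        mul_le_mul_of_nonneg_right (le_abs_self C) (by positivity)
      have h7 : 0 ≤ D * (R : ℝ) ^ (1 / 4 : ℝ) := by positivity
      linarith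
    · have h5 : (w * S muc R ((k : ℝ) / (2 * q : ℕ))).re ≤ ‖w‖ * R := by
        refine (Complex.re_le_norm _).trans ?_
        rw [norm_mul]
        exact mul_le_mul_of_nonneg_left (norm_S_le muc_norm R _) (norm_nonneg _)
      have h6 : ‖w‖ * R ≤ D := by
        rw [hD]
        gcongr
      have h7 : 1 ≤ (R : ℝ) ^ (1 / 4 : ℝ) := Real.one_le_rpow hR1 (by norm_num)
      have h8 : 0 ≤ |C| * (R : ℝ) ^ (1 / 2 : ℝ) := by positivity
      nlinarith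
  have hk2 := kap_pos (show (0 : ℝ) < 1 / 2 by norm_num)
  have hk4 := kap_pos (show (0 : ℝ) < 1 / 4 by norm_num)
  obtain ⟨Ψ, hΨ⟩ : ∃ Ψ : ℕ → ℝ, Ψ = fun R : ℕ => kap (1 / 2) * |C| * (R : ℝ) ^ (1 / 2 : ℝ) +
      kap (1 / 4) * D * (R : ℝ) ^ (1 / 4 : ℝ) := ⟨_, rfl⟩
  have hmono : ∀ R : ℕ, Ψ (R / 2) ≤ Ψ R := by
    intro R
    rw [hΨ]
    have h4 : ((R / 2 : ℕ) : ℝ) ≤ R := by exact_mod_cast Nat.div_le_self R 2
    simp only []
    gcongr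
  have h4 : ∀ (R : ℕ) (x : ℝ), x ∈ Pts q → |(w * S muc R x).re| ≤ 2 * Ψ R := by
    intro R x hx
    have h5 := maj_two mu_two (A := Pts q) (by
        rintro x ⟨k, rfl⟩
        exact ⟨2 * k, by push_cast; ring⟩) (by
        rintro x ⟨k, rfl⟩
        refine ⟨k + q, ?_⟩
        push_cast
        field_simp) w (Φ := fun R : ℕ => |C| * (R : ℝ) ^ (1 / 2 : ℝ) + D * (R : ℝ) ^ (1 / 4 : ℝ)) (Ψ := Ψ)
        (by rw [hΨ]; simp only []; positivity) (fun R _ => by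
          have h6 := kap_maj (show (0 : ℝ) < 1 / 2 by norm_num) (abs_nonneg C) R
          have h7 := kap_maj (show (0 : ℝ) < 1 / 4 by norm_num) hD0 R
          rw [hΨ]
          simp only []
          linarith) h3 R hx
    have := hmono R
    linarith
  have h5 : ∀ R : ℕ, |w.re| * |(S muc R ((a / (q : ℕ) : ℚ) : ℝ)).re| ≤ 2 * Ψ R := by
    intro R
    obtain ⟨x, hx⟩ : ∃ x : ℝ, x = ((a / (q : ℕ) : ℚ) : ℝ) := ⟨_, rfl⟩
    rw [← hx]
    have hx1 : x ∈ Pts q := by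
      refine ⟨2 * a, ?_⟩
      rw [hx]
      push_cast
      field_simp
    have hx2 : -x ∈ Pts q := by
      refine ⟨-(2 * a), ?_⟩
      rw [hx]
      push_cast
      field_simp
    have h6 := h4 R x hx1
    have h7 := h4 R (-x) hx2
    rw [S_neg muc_conj] at h7
    have h8 : (w * S muc R x).re + (w * (starRingEnd ℂ) (S muc R x)).re = 2 * (w.re * (S muc R x).re) := by
      simp only [Complex.mul_re, Complex.conj_re, Complex.conj_im]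
      ring
    have h9 : |2 * (w.re * (S muc R x).re)| ≤ 2 * Ψ R + 2 * Ψ R := by
      rw [← h8]
      exact (abs_add_le _ _).trans (add_le_add h6 h7)
    rw [abs_mul, abs_of_pos (show (0 : ℝ) < 2 by norm_num), abs_mul] at h9
    linarith
  -- the small term is negligible
  have h6 : ∀ᶠ R : ℕ in atTop, 2 * (kap (1 / 4) * D) * (R : ℝ) ^ (1 / 4 : ℝ) ≤ Real.sqrt R := by
    have h7 : Tendsto (fun R : ℕ => (R : ℝ) ^ (1 / 4 : ℝ)) atTop atTop :=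
      (tendsto_rpow_atTop (by norm_num)).comp tendsto_natCast_atTop_atTop
    filter_upwards [h7.eventually_ge_atTop (2 * (kap (1 / 4) * D))] with R hR
    have h8 : Real.sqrt R = (R : ℝ) ^ (1 / 4 : ℝ) * (R : ℝ) ^ (1 / 4 : ℝ) := by
      rw [Real.sqrt_eq_rpow, ← sq, ← Real.rpow_natCast, ← Real.rpow_mul (Nat.cast_nonneg _)]
      norm_num
    rw [h8]
    gcongr
  obtain ⟨R, hR1, hR2⟩ := (ha.and_eventually h6).exists
  have h7 := h5 R
  rw [div_mul_eq_mul_div, div_lt_iff₀ hw0] at hR1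
  rw [hΨ] at h7
  simp only [] at h7
  rw [← Real.sqrt_eq_rpow] at h7
  have h8 : |w.re| * |(S muc R ((a / (q : ℕ) : ℚ) : ℝ)).re| =
      |(S muc R ((a / (q : ℕ) : ℚ) : ℝ)).re| * |w.re| := mul_comm _ _
  linarith

end Pool.Agent.Y853.EM
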