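import Pool.Agent.Y821.ME.Fin2D

/-!
# Real parts in project ME of helper821

The method of `Pool.Agent.Y821.ME.Two` uses only even characters; so only the real parts of the
exponential sums at the fractions with denominator `p ^ (2l)` matter. This file follows the files `Fin2B`,
`Fin2C`, `Fin2D` of helper821 with this change.
-/

set_option autoImplicit false

open Filter Topology MeasureTheory Finset

namespace Pool.Agent.Y853.EM

open Pool.Agent.Y821.ME (mu F Mx aF Kth Pair Disc S_TRIG S_SUP S_LAP S_LIM S_SER S_PAIR S_CH S_KL2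
  ee Ev cf Kl cL cR cop D VR VL th1 floor_bound)

/-- the hypothesis: square root bounds for the real parts at the fractions `a / p ^ k` in lowest terms -/
def HypR (C : ℝ) (p k : ℕ) : Prop := ∀ a : ℕ, ¬ p ∣ a →
  ∀ᶠ R : ℕ in atTop, |(F R ((a / (p ^ k : ℕ) : ℚ) : ℝ)).re| ≤ C * Real.sqrt R

theorem HypR.all {C : ℝ} {p k : ℕ} (hC : 0 ≤ C) (h : HypR C p k) (a : ℕ) (ha : ¬ p ∣ a) :
    ∃ B : ℝ, 0 ≤ B ∧ ∀ R : ℕ, |(F R ((a / (p ^ k : ℕ) : ℚ) : ℝ)).re| ≤ B * Real.sqrt R := by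
  obtain ⟨N, hN⟩ := eventually_atTop.mp (h a ha)
  refine ⟨max C (Real.sqrt N), hC.trans (le_max_left _ _), fun R => ?_⟩
  rcases le_or_gt N R with h1 | h1
  · exact (hN R h1).trans (mul_le_mul_of_nonneg_right (le_max_left _ _) (Real.sqrt_nonneg _))
  · calc |(F R ((a / (p ^ k : ℕ) : ℚ) : ℝ)).re| ≤ ‖F R ((a / (p ^ k : ℕ) : ℚ) : ℝ)‖ :=
          Complex.abs_re_le_norm _
      _ ≤ R := Pool.Agent.Y821.ME.norm_F_le R _
      _ = Real.sqrt R * Real.sqrt R := (Real.mul_self_sqrt (Nat.cast_nonneg R)).symm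
      _ ≤ Real.sqrt N * Real.sqrt R := by
          gcongr
      _ ≤ _ := mul_le_mul_of_nonneg_right (le_max_right _ _) (Real.sqrt_nonneg _)

theorem mu_conj (n : ℕ) : (starRingEnd ℂ) (mu n) = mu n := by
  unfold mu
  exact map_intCast (starRingEnd ℂ) _

theorem Mx_conj {c c' : ℕ → ℂ} (h : ∀ n, c' n = (starRingEnd ℂ) (c n)) (v : ℝ) :
    Mx c' v = (starRingEnd ℂ) (Mx c v) := by
  unfold Mx
  rw [map_sum]
  refine Finset.sum_congr rfl fun n _ => ?_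
  rw [map_mul, mu_conj, h]

theorem ee_neg {q : ℕ} [NeZero q] (x : ZMod q) : ee q (-x) = (starRingEnd ℂ) (ee q x) := by
  unfold ee
  exact AddChar.map_neg_eq_conj _ _

theorem Mx_ee_neg {q : ℕ} [NeZero q] (a : ZMod q) (v : ℝ) :
    Mx (fun n => ee q (-a * n)) v = (starRingEnd ℂ) (Mx (fun n => ee q (a * n)) v) :=
  Mx_conj (fun n => by rw [neg_mul, ee_neg]) v

theorem even_inv {q : ℕ} {χ : DirichletCharacter ℂ q} (he : χ.Even) : (χ⁻¹).Even := by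
  unfold DirichletCharacter.Even at *
  rw [MulChar.inv_apply_eq_inv', he, inv_one]

section

variable {p k : ℕ} [NeZero (p ^ k)]

theorem Mx_ee_re (hp : p.Prime) (hk : 1 ≤ k) {C : ℝ} (hC : 0 ≤ C) (h : HypR C p k) (a : ZMod (p ^ k))
    (ha : IsUnit a) :
    ∃ B : ℝ, 0 ≤ B ∧ ∀ v : ℝ, 0 ≤ v → |(Mx (fun n => ee (p ^ k) (a * n)) v).re| ≤ B * Real.sqrt v := by
  obtain ⟨B, hB0, hB⟩ := h.all hC a.val (Pool.Agent.Y821.ME.Two.not_dvd_val hp hk a ha)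
  exact ⟨B, hB0, fun v hv => by
    rw [Pool.Agent.Y821.ME.Mx_ee]
    exact (hB _).trans (floor_bound hB0 hv)⟩

/-- square root bounds for the even characters -/
theorem Mx_chi (hp : p.Prime) (hk : 1 ≤ k) {C : ℝ} (hC : 0 ≤ C) (h : HypR C p k)
    {χ : DirichletCharacter ℂ (p ^ k)} (he : χ.Even) (hχ : χ.IsPrimitive) :
    ∃ B : ℝ, 0 ≤ B ∧ ∀ v : ℝ, 1 ≤ v → ‖Mx (fun n => χ n) v‖ ≤ B * Real.sqrt v := by
  have hinv : (χ⁻¹).IsPrimitive := by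
    rw [DirichletCharacter.isPrimitive_def, DirichletCharacter.conductor_inv]
    exact hχ
  have hex : ∀ a : ZMod (p ^ k), ∃ B : ℝ, 0 ≤ B ∧ (IsUnit a → ∀ v : ℝ, 0 ≤ v →
      |(Mx (fun n => ee (p ^ k) (a * n)) v).re| ≤ B * Real.sqrt v) := by
    intro a
    by_cases ha : IsUnit a
    · obtain ⟨B, hB0, hB⟩ := Mx_ee_re hp hk hC h a ha
      exact ⟨B, hB0, fun _ => hB⟩
    · exact ⟨0, le_rfl, fun h' => absurd h' ha⟩
  choose B hB0 hB using hex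
  have hg := Pool.Agent.Y821.ME.gauss_ne_zero hinv
  have hg' : 0 < ‖gaussSum χ⁻¹ ZMod.stdAddChar‖ := norm_pos_iff.mpr hg
  refine ⟨(∑ a : ZMod (p ^ k), B a) / ‖gaussSum χ⁻¹ ZMod.stdAddChar‖,
    div_nonneg (Finset.sum_nonneg fun a _ => hB0 a) hg'.le, fun v hv => ?_⟩
  have h1 : Mx (fun n => χ n) v * gaussSum χ⁻¹ ZMod.stdAddChar =
      ∑ a : ZMod (p ^ k), χ⁻¹ a * Mx (fun n => ee (p ^ k) (a * n)) v := by
    unfold Mx
    simp only [Finset.mul_sum, Finset.sum_mul]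
    rw [Finset.sum_comm]
    refine Finset.sum_congr rfl fun n _ => ?_
    have h2 := gaussSum_mulShift_of_isPrimitive ZMod.stdAddChar hinv (n : ZMod (p ^ k))
    rw [inv_inv] at h2
    rw [mul_assoc, ← h2]
    unfold gaussSum
    rw [Finset.mul_sum]
    refine Finset.sum_congr rfl fun a _ => ?_
    rw [AddChar.mulShift_apply, mul_comm (n : ZMod (p ^ k)) a]
    unfold ee
    ring
  have h1' : ∑ a : ZMod (p ^ k), χ⁻¹ a * Mx (fun n => ee (p ^ k) (a * n)) v =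
      ∑ a : ZMod (p ^ k), χ⁻¹ a * (starRingEnd ℂ) (Mx (fun n => ee (p ^ k) (a * n)) v) := by
    rw [← Equiv.sum_comp (Equiv.neg (ZMod (p ^ k)))]
    refine Finset.sum_congr rfl fun a _ => ?_
    rw [Equiv.neg_apply, Mx_ee_neg, (even_inv he).eval_neg]
  have h1'' : Mx (fun n => χ n) v * gaussSum χ⁻¹ ZMod.stdAddChar =
      ∑ a : ZMod (p ^ k), χ⁻¹ a * (((Mx (fun n => ee (p ^ k) (a * n)) v).re : ℝ) : ℂ) := by
    have h4 : (2 : ℂ) * (Mx (fun n => χ n) v * gaussSum χ⁻¹ ZMod.stdAddChar) =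
        2 * ∑ a : ZMod (p ^ k), χ⁻¹ a * (((Mx (fun n => ee (p ^ k) (a * n)) v).re : ℝ) : ℂ) := by
      rw [two_mul]
      nth_rewrite 1 [h1]
      rw [h1, h1', ← h1', h1']
      rw [← h1']
      nth_rewrite 2 [h1']
      rw [← Finset.sum_add_distrib, Finset.mul_sum]
      refine Finset.sum_congr rfl fun a _ => ?_
      rw [← mul_add, Complex.add_conj]
      push_cast
      ring
    exact mul_left_cancel₀ two_ne_zero h4
  have h3 : ‖Mx (fun n => χ n) v‖ * ‖gaussSum χ⁻¹ ZMod.stdAddChar‖ ≤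
      (∑ a : ZMod (p ^ k), B a) * Real.sqrt v := by
    rw [← norm_mul, h1'', Finset.sum_mul]
    refine (norm_sum_le _ _).trans (Finset.sum_le_sum fun a _ => ?_)
    rw [norm_mul, Complex.norm_real, Real.norm_eq_abs]
    by_cases ha : IsUnit a
    · calc ‖χ⁻¹ a‖ * |(Mx (fun n => ee (p ^ k) (a * n)) v).re| ≤ 1 * (B a * Real.sqrt v) := by
            gcongr
            · exact DirichletCharacter.norm_le_one _ _
            · exact hB a ha v (by linarith)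
        _ = _ := one_mul _
    · rw [MulChar.map_nonunit _ ha, norm_zero, zero_mul]
      exact mul_nonneg (hB0 a) (Real.sqrt_nonneg _)
  rw [div_mul_eq_mul_div, le_div_iff₀ hg']
  exact h3

theorem cop_neg (a : ZMod (p ^ k)) (n : ℕ) : cop p k (-a) n = (starRingEnd ℂ) (cop p k a n) := by
  unfold cop
  split_ifs
  · exact (map_zero _).symm
  · rw [neg_mul, ee_neg]

theorem Mx_cop_re_le (hp : p.Prime) (hk : 1 ≤ k) (a : ZMod (p ^ k)) (v D : ℝ)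
    (h0 : |(F ⌊v⌋₊ ((a.val / (p ^ k : ℕ) : ℚ) : ℝ)).re| ≤ D)
    (h1 : ∀ j ∈ range p, |(F ⌊v⌋₊ ((a.val / (p ^ k : ℕ) + j / p : ℚ) : ℝ)).re| ≤ D) :
    |(Mx (cop p k a) v).re| ≤ 2 * D := by
  have hp0 : (0 : ℝ) < p := Nat.cast_pos.mpr hp.pos
  rw [Pool.Agent.Y821.ME.Mx_cop hp hk, Complex.sub_re]
  have e1 : ((1 / p : ℂ) * ∑ j ∈ range p, F ⌊v⌋₊ ((a.val / (p ^ k : ℕ) + j / p : ℚ) : ℝ)).re =
      (1 / p : ℝ) * ∑ j ∈ range p, (F ⌊v⌋₊ ((a.val / (p ^ k : ℕ) + j / p : ℚ) : ℝ)).re := by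
    have e2 : (1 / p : ℂ) = ((1 / p : ℝ) : ℂ) := by push_cast; ring
    rw [e2, Complex.re_ofReal_mul, Complex.re_sum]
  rw [e1]
  refine (abs_sub _ _).trans ?_
  have h2 : |∑ j ∈ range p, (F ⌊v⌋₊ ((a.val / (p ^ k : ℕ) + j / p : ℚ) : ℝ)).re| ≤ p * D := by
    refine (Finset.abs_sum_le_sum_abs _ _).trans ((Finset.sum_le_sum h1).trans ?_)
    simp
  have h3 : |(1 / p : ℝ) * ∑ j ∈ range p, (F ⌊v⌋₊ ((a.val / (p ^ k : ℕ) + j / p : ℚ) : ℝ)).re| ≤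
      1 / p * (p * D) := by
    rw [abs_mul, abs_of_pos (show (0 : ℝ) < 1 / p by positivity)]
    gcongr
  have h4 : 1 / (p : ℝ) * (p * D) = D := by field_simp
  linarith

theorem Mx_cop_all (hp : p.Prime) (hk : 2 ≤ k) {C : ℝ} (hC : 0 ≤ C) (h : HypR C p k) (a : ZMod (p ^ k))
    (ha : IsUnit a) :
    ∃ B : ℝ, 0 ≤ B ∧ ∀ v : ℝ, 0 ≤ v → |(Mx (cop p k a) v).re| ≤ B * Real.sqrt v := by
  have hav := Pool.Agent.Y821.ME.Two.not_dvd_val hp (by omega) a ha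
  obtain ⟨B, hB0, hB⟩ := h.all hC a.val hav
  choose B' hB'0 hB' using fun j : ℕ => h.all hC (a.val + j * p ^ (k - 1))
    (Pool.Agent.Y821.ME.Two.not_dvd_shift hk a.val j hav)
  refine ⟨2 * (B + ∑ j ∈ range p, B' j), by
    have := Finset.sum_nonneg fun j (_ : j ∈ range p) => hB'0 j
    positivity, fun v hv => ?_⟩
  rw [mul_assoc]
  refine Mx_cop_re_le hp (by omega) a v _ ?_ ?_
  · refine (hB _).trans ((floor_bound hB0 hv).trans ?_)
    gcongr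
    have := Finset.sum_nonneg fun j (_ : j ∈ range p) => hB'0 j
    linarith
  · intro j hj
    rw [Pool.Agent.Y821.ME.Two.frac_eq hp (by omega)]
    refine (hB' j _).trans ((floor_bound (hB'0 j) hv).trans ?_)
    gcongr
    have := Finset.single_le_sum (fun j _ => hB'0 j) hj
    linarith

theorem Mx_cop_ev (hp : p.Prime) (hk : 2 ≤ k) {C : ℝ} (hC : 0 ≤ C) (h : HypR C p k) (a : ZMod (p ^ k))
    (ha : IsUnit a) :
    ∃ v₀ : ℝ, 0 ≤ v₀ ∧ ∀ v : ℝ, v₀ ≤ v → |(Mx (cop p k a) v).re| ≤ 2 * C * Real.sqrt v := by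
  have hav := Pool.Agent.Y821.ME.Two.not_dvd_val hp (by omega) a ha
  have h1 : ∀ᶠ R : ℕ in atTop, |(F R ((a.val / (p ^ k : ℕ) : ℚ) : ℝ)).re| ≤ C * Real.sqrt R ∧
      ∀ j ∈ range p, |(F R ((a.val / (p ^ k : ℕ) + j / p : ℚ) : ℝ)).re| ≤ C * Real.sqrt R := by
    refine (h a.val hav).and ?_
    rw [eventually_all_finset]
    intro j _
    simp only [Pool.Agent.Y821.ME.Two.frac_eq hp (show 1 ≤ k by omega)]
    exact h _ (Pool.Agent.Y821.ME.Two.not_dvd_shift hk a.val j hav)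
  obtain ⟨N, hN⟩ := eventually_atTop.mp h1
  refine ⟨N, Nat.cast_nonneg _, fun v hv => ?_⟩
  have hv0 : 0 ≤ v := (Nat.cast_nonneg N).trans hv
  have h2 := hN ⌊v⌋₊ (Nat.le_floor hv)
  rw [mul_assoc]
  exact Mx_cop_re_le hp (by omega) a v _ (h2.1.trans (floor_bound hC hv0)) fun j hj =>
    (h2.2 j hj).trans (floor_bound hC hv0)

end

section

variable {p l : ℕ} [NeZero (p ^ (2 * l))]

theorem norm_cR (hch : S_CH) (hp : p.Prime) (hp2 : p ≠ 2) (hl : 1 ≤ l) (a : (ZMod (p ^ (2 * l)))ˣ) (v : ℝ) :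
    ‖Mx (cR (p ^ (2 * l)) a) v‖ = |(Mx (cop p (2 * l) (a : ZMod (p ^ (2 * l)))) v).re| := by
  rw [Pool.Agent.Y821.ME.Mx_cR hch hp hp2 hl, Mx_conj (cop_neg (a : ZMod (p ^ (2 * l)))), Complex.add_conj]
  rw [norm_div, Complex.norm_ofNat, Complex.norm_real, Real.norm_eq_abs, abs_mul,
    abs_of_pos (show (0 : ℝ) < 2 by norm_num)]
  ring

theorem cR_bound (hch : S_CH) (hp : p.Prime) (hp2 : p ≠ 2) (hl : 1 ≤ l) {C : ℝ} (hC : 0 ≤ C)
    (h : HypR C p (2 * l)) (a : (ZMod (p ^ (2 * l)))ˣ) :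
    ∃ B : ℝ, ∀ v, 1 ≤ v → ‖Mx (cR (p ^ (2 * l)) a) v‖ ≤ B * Real.sqrt v := by
  obtain ⟨B1, -, h1⟩ := Mx_cop_all hp (show 2 ≤ 2 * l by omega) hC h (a : ZMod (p ^ (2 * l))) a.isUnit
  refine ⟨B1, fun v hv => ?_⟩
  rw [norm_cR hch hp hp2 hl]
  exact h1 v (by linarith)

theorem cR_ev (hch : S_CH) (hp : p.Prime) (hp2 : p ≠ 2) (hl : 1 ≤ l) {C : ℝ} (hC : 0 ≤ C)
    (h : HypR C p (2 * l)) (a : (ZMod (p ^ (2 * l)))ˣ) :
    ∃ v₀ : ℝ, ∀ v, v₀ ≤ v → ‖Mx (cR (p ^ (2 * l)) a) v‖ ≤ 2 * C * Real.sqrt v := by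
  obtain ⟨v1, -, h1⟩ := Mx_cop_ev hp (show 2 ≤ 2 * l by omega) hC h (a : ZMod (p ^ (2 * l))) a.isUnit
  refine ⟨v1, fun v hv => ?_⟩
  rw [norm_cR hch hp hp2 hl]
  exact h1 v hv

end

end Pool.Agent.Y853.EM
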