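import Mathlib

set_option autoImplicit false

/-! Exponential sums whose coefficients change sign at the prime 2: one-sided bounds and bounds on a
quarter of the circle. -/

namespace Pool.Agent.Y853.EM

open Finset

/-- the exponential sum with the coefficients `c` -/
noncomputable def S (c : ℕ → ℂ) (R : ℕ) (x : ℝ) : ℂ :=
  ∑ n ∈ Icc 1 R, c n * Complex.exp (2 * Real.pi * Complex.I * n * x)

/-- the coefficients at the odd numbers -/
noncomputable def od (c : ℕ → ℂ) (n : ℕ) : ℂ := if Odd n then c n else 0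

theorem S_zero (c : ℕ → ℂ) (x : ℝ) : S c 0 x = 0 := by
  unfold S
  simp

theorem S_split (c : ℕ → ℂ) (R : ℕ) (x : ℝ) :
    S c R x = S (od c) R x + S (fun m => c (2 * m)) (R / 2) (2 * x) := by
  classical
  have h1 : S c R x = S (od c) R x + ∑ n ∈ (Icc 1 R).filter (fun n => ¬ Odd n),
      c n * Complex.exp (2 * Real.pi * Complex.I * n * x) := by
    have h2 : S (od c) R x = ∑ n ∈ (Icc 1 R).filter (fun n => Odd n),
        c n * Complex.exp (2 * Real.pi * Complex.I * n * x) := by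
      unfold S od
      rw [Finset.sum_filter]
      refine Finset.sum_congr rfl fun n _ => ?_
      split_ifs <;> simp
    rw [h2]
    unfold S
    rw [Finset.sum_filter_add_sum_filter_not]
  rw [h1]
  congr 1
  unfold S
  symm
  refine Finset.sum_bij (fun m _ => 2 * m) ?_ ?_ ?_ ?_
  · intro m hm
    rw [Finset.mem_Icc] at hm
    rw [Finset.mem_filter, Finset.mem_Icc]
    refine ⟨⟨by omega, by omega⟩, ?_⟩
    rw [Nat.not_odd_iff_even]
    exact even_two_mul m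
  · intro a _ b _ h
    omega
  · intro n hn
    rw [Finset.mem_filter, Finset.mem_Icc, Nat.not_odd_iff_even] at hn
    obtain ⟨⟨h1, h2⟩, m, hm⟩ := hn
    exact ⟨m, by rw [Finset.mem_Icc]; omega, by omega⟩
  · intro m _
    congr 2
    push_cast
    ring

theorem exp_nat (k : ℕ) : Complex.exp (2 * Real.pi * Complex.I * k) = 1 := by
  rw [show (2 * Real.pi * Complex.I * k : ℂ) = k * (2 * Real.pi * Complex.I) by ring]
  exact Complex.exp_nat_mul_two_pi_mul_I k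

theorem S_add_nat (c : ℕ → ℂ) (R : ℕ) (x : ℝ) (k : ℕ) : S c R (x + k) = S c R x := by
  unfold S
  refine Finset.sum_congr rfl fun n _ => ?_
  congr 1
  have h : (2 * Real.pi * Complex.I * n * ((x + k : ℝ) : ℂ) : ℂ) =
      2 * Real.pi * Complex.I * n * x + 2 * Real.pi * Complex.I * ((n * k : ℕ) : ℂ) := by
    push_cast
    ring
  rw [h, Complex.exp_add, exp_nat, mul_one]

theorem S_od_half (c : ℕ → ℂ) (R : ℕ) (x : ℝ) : S (od c) R (x + 1 / 2) = -S (od c) R x := by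
  unfold S
  rw [← Finset.sum_neg_distrib]
  refine Finset.sum_congr rfl fun n _ => ?_
  unfold od
  split_ifs with hn
  · obtain ⟨m, rfl⟩ := hn
    have h : (2 * Real.pi * Complex.I * ((2 * m + 1 : ℕ) : ℂ) * ((x + 1 / 2 : ℝ) : ℂ) : ℂ) =
        2 * Real.pi * Complex.I * ((2 * m + 1 : ℕ) : ℂ) * x + (2 * Real.pi * Complex.I * (m : ℕ) +
          Real.pi * Complex.I) := by
      push_cast
      ring
    rw [h, Complex.exp_add, Complex.exp_add, exp_nat, Complex.exp_pi_mul_I]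
    ring
  · simp

theorem S_od_sub_half (c : ℕ → ℂ) (R : ℕ) (x : ℝ) : S (od c) R (x - 1 / 2) = -S (od c) R x := by
  have := S_od_half c R (x - 1 / 2)
  rw [sub_add_cancel] at this
  rw [this, neg_neg]

theorem S_neg {c : ℕ → ℂ} (hc : ∀ n, (starRingEnd ℂ) (c n) = c n) (R : ℕ) (x : ℝ) :
    S c R (-x) = (starRingEnd ℂ) (S c R x) := by
  unfold S
  rw [map_sum]
  refine Finset.sum_congr rfl fun n _ => ?_
  rw [map_mul, hc, ← Complex.exp_conj]
  congr 2
  simp only [map_mul, Complex.conj_ofReal, Complex.conj_I, map_ofNat, Complex.conj_natCast]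
  push_cast
  ring

theorem od_conj {c : ℕ → ℂ} (hc : ∀ n, (starRingEnd ℂ) (c n) = c n) (n : ℕ) :
    (starRingEnd ℂ) (od c n) = od c n := by
  unfold od
  split_ifs
  · exact hc n
  · exact map_zero _

/-- the modulus of the odd part is even and has period 1/2 -/
theorem quarter {c : ℕ → ℂ} (hc : ∀ n, (starRingEnd ℂ) (c n) = c n) (R : ℕ) (x : ℝ) :
    ∃ y : ℝ, 0 ≤ y ∧ y ≤ 1 / 4 ∧ ‖S (od c) R x‖ = ‖S (od c) R y‖ := by
  have hint : ∀ (m : ℤ) (z : ℝ), ‖S (od c) R (z + m / 2)‖ = ‖S (od c) R z‖ := by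
    intro m
    induction m using Int.induction_on with
    | zero => intro z; simp
    | succ i ih =>
      intro z
      have h1 : z + (((i : ℤ) + 1 : ℤ) : ℝ) / 2 = (z + ((i : ℤ) : ℝ) / 2) + 1 / 2 := by
        push_cast; ring
      rw [h1, S_od_half, norm_neg, ih]
    | pred i ih =>
      intro z
      have h1 : z + ((-(i : ℤ) - 1 : ℤ) : ℝ) / 2 = (z + ((-(i : ℤ) : ℤ) : ℝ) / 2) - 1 / 2 := by
        push_cast; ring
      rw [h1, S_od_sub_half, norm_neg, ih]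
  obtain ⟨m, hm⟩ : ∃ m : ℤ, m = round (2 * x) := ⟨_, rfl⟩
  have h1 : |2 * x - m| ≤ 1 / 2 := by rw [hm]; exact abs_sub_round _
  have h2 : ‖S (od c) R x‖ = ‖S (od c) R (x - m / 2)‖ := by
    have := hint m (x - m / 2)
    rw [sub_add_cancel] at this
    exact this
  refine ⟨|x - m / 2|, abs_nonneg _, ?_, ?_⟩
  · have h3 : x - m / 2 = (2 * x - m) / 2 := by ring
    rw [h3, abs_div, abs_of_pos (show (0 : ℝ) < 2 by norm_num)]
    linarith
  · rw [h2]
    rcases abs_cases (x - m / 2) with ⟨h, -⟩ | ⟨h, -⟩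
    · rw [h]
    · rw [h, S_neg (od_conj hc), Complex.norm_conj]

/-- the arithmetic input at the prime 2 -/
def Mu2 (c : ℕ → ℂ) : Prop := ∀ m, c (2 * m) = -od c m

def La2 (c : ℕ → ℂ) : Prop := ∀ m, c (2 * m) = -c m

theorem S_negc (c : ℕ → ℂ) (R : ℕ) (x : ℝ) : S (fun n => -c n) R x = -S c R x := by
  unfold S
  rw [← Finset.sum_neg_distrib]
  exact Finset.sum_congr rfl fun n _ => by ring

theorem mu_eq {c : ℕ → ℂ} (h : Mu2 c) (R : ℕ) (x : ℝ) :
    S c R x = S (od c) R x - S (od c) (R / 2) (2 * x) := by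
  rw [S_split]
  have h1 : (fun m => c (2 * m)) = fun m => -od c m := funext h
  rw [h1, S_negc]
  ring

theorem la_eq {c : ℕ → ℂ} (h : La2 c) (R : ℕ) (x : ℝ) :
    S c R x = S (od c) R x - S c (R / 2) (2 * x) := by
  rw [S_split]
  have h1 : (fun m => c (2 * m)) = fun m => -c m := funext h
  rw [h1, S_negc]
  ring

theorem half_rpow {b : ℝ} (hb : 0 ≤ b) (R : ℕ) : ((R / 2 : ℕ) : ℝ) ^ b ≤ (2 : ℝ) ^ (-b) * (R : ℝ) ^ b := by
  have h1 : ((R / 2 : ℕ) : ℝ) ≤ (R : ℝ) / 2 := Nat.cast_div_le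
  calc ((R / 2 : ℕ) : ℝ) ^ b ≤ ((R : ℝ) / 2) ^ b := Real.rpow_le_rpow (Nat.cast_nonneg _) h1 hb
    _ = (2 : ℝ) ^ (-b) * (R : ℝ) ^ b := by
        rw [Real.div_rpow (Nat.cast_nonneg _) (by norm_num), Real.rpow_neg (by norm_num), div_eq_inv_mul]

theorem two_neg_lt {b : ℝ} (hb : 0 < b) : (2 : ℝ) ^ (-b) < 1 :=
  Real.rpow_lt_one_of_one_lt_of_neg (by norm_num) (by linarith)

/-- the constant -/
noncomputable def kap (b : ℝ) : ℝ := 1 / (1 - (2 : ℝ) ^ (-b))

theorem kap_pos {b : ℝ} (hb : 0 < b) : 0 < kap b := by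
  have := two_neg_lt hb
  unfold kap
  apply one_div_pos.2
  linarith

theorem kap_eq {b : ℝ} (hb : 0 < b) : 1 + kap b * (2 : ℝ) ^ (-b) = kap b := by
  have := two_neg_lt hb
  unfold kap
  have h : 1 - (2 : ℝ) ^ (-b) ≠ 0 := by linarith
  field_simp
  ring

/-- one-sided bounds for the odd part -/
theorem od_one {c : ℕ → ℂ} (h2 : Mu2 c) {b C : ℝ} (hb : 0 < b) (hC : 0 ≤ C) (w : ℂ)
    (h : ∀ (R : ℕ) (x : ℝ), (w * S c R x).re ≤ C * (R : ℝ) ^ b) (R : ℕ) :
    ∀ x : ℝ, (w * S (od c) R x).re ≤ kap b * C * (R : ℝ) ^ b := by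
  induction R using Nat.strong_induction_on with
  | _ R ih =>
    intro x
    rcases Nat.eq_zero_or_pos R with h0 | h0
    · subst h0
      rw [S_zero, mul_zero, Complex.zero_re]
      have := kap_pos hb
      positivity
    · have h3 := ih (R / 2) (Nat.div_lt_self h0 (by norm_num)) (2 * x)
      have h4 : S (od c) R x = S c R x + S (od c) (R / 2) (2 * x) := by rw [mu_eq h2]; ring
      rw [h4, mul_add, Complex.add_re]
      have h5 := h R x
      have h6 := mul_le_mul_of_nonneg_left (half_rpow hb.le R) (mul_nonneg (kap_pos hb).le hC)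
      calc (w * S c R x).re + (w * S (od c) (R / 2) (2 * x)).re
          ≤ C * (R : ℝ) ^ b + kap b * C * ((2 : ℝ) ^ (-b) * (R : ℝ) ^ b) := by linarith
        _ = (1 + kap b * (2 : ℝ) ^ (-b)) * C * (R : ℝ) ^ b := by ring
        _ = _ := by rw [kap_eq hb]

/-- hence two-sided bounds for the odd part -/
theorem od_two {c : ℕ → ℂ} {R : ℕ} {B : ℝ} {w : ℂ} (h : ∀ x : ℝ, (w * S (od c) R x).re ≤ B) (x : ℝ) :
    |(w * S (od c) R x).re| ≤ B := by
  rw [abs_le]
  refine ⟨?_, h x⟩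
  have := h (x + 1 / 2)
  rw [S_od_half, mul_neg, Complex.neg_re] at this
  linarith

/-- one-sided bounds give two-sided bounds -/
theorem one_two {c : ℕ → ℂ} (h2 : Mu2 c) {b C : ℝ} (hb : 0 < b) (hC : 0 ≤ C) (w : ℂ)
    (h : ∀ (R : ℕ) (x : ℝ), (w * S c R x).re ≤ C * (R : ℝ) ^ b) (R : ℕ) (x : ℝ) :
    |(w * S c R x).re| ≤ (1 + (2 : ℝ) ^ (-b)) * kap b * C * (R : ℝ) ^ b := by
  have h1 := od_two (od_one h2 hb hC w h R) x
  have h3 := od_two (od_one h2 hb hC w h (R / 2)) (2 * x)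
  have h6 := mul_le_mul_of_nonneg_left (half_rpow hb.le R) (mul_nonneg (kap_pos hb).le hC)
  rw [mu_eq h2, mul_sub, Complex.sub_re]
  refine (abs_sub _ _).trans ?_
  calc |(w * S (od c) R x).re| + |(w * S (od c) (R / 2) (2 * x)).re|
      ≤ kap b * C * (R : ℝ) ^ b + kap b * C * ((2 : ℝ) ^ (-b) * (R : ℝ) ^ b) := by linarith
    _ = _ := by ring

/-- bounds on a quarter of the circle -/
theorem od_quarter {c : ℕ → ℂ} (h2 : Mu2 c) (hc : ∀ n, (starRingEnd ℂ) (c n) = c n) {b C : ℝ} (hb : 0 < b)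
    (hC : 0 ≤ C) (h : ∀ (R : ℕ) (x : ℝ), 0 ≤ x → x ≤ 1 / 4 → ‖S c R x‖ ≤ C * (R : ℝ) ^ b) (R : ℕ) :
    ∀ x : ℝ, ‖S (od c) R x‖ ≤ kap b * C * (R : ℝ) ^ b := by
  induction R using Nat.strong_induction_on with
  | _ R ih =>
    intro x
    obtain ⟨y, hy0, hy1, hxy⟩ := quarter hc R x
    rw [hxy]
    rcases Nat.eq_zero_or_pos R with h0 | h0
    · subst h0
      rw [S_zero, norm_zero]
      have := kap_pos hb
      positivity
    · have h3 := ih (R / 2) (Nat.div_lt_self h0 (by norm_num)) (2 * y)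
      have h4 : S (od c) R y = S c R y + S (od c) (R / 2) (2 * y) := by rw [mu_eq h2]; ring
      rw [h4]
      refine (norm_add_le _ _).trans ?_
      have h5 := h R y hy0 hy1
      have h6 := mul_le_mul_of_nonneg_left (half_rpow hb.le R) (mul_nonneg (kap_pos hb).le hC)
      calc ‖S c R y‖ + ‖S (od c) (R / 2) (2 * y)‖
          ≤ C * (R : ℝ) ^ b + kap b * C * ((2 : ℝ) ^ (-b) * (R : ℝ) ^ b) := by linarith
        _ = (1 + kap b * (2 : ℝ) ^ (-b)) * C * (R : ℝ) ^ b := by ring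
        _ = _ := by rw [kap_eq hb]

theorem all_of_quarter {c : ℕ → ℂ} (h2 : Mu2 c) (hc : ∀ n, (starRingEnd ℂ) (c n) = c n) {b C : ℝ}
    (hb : 0 < b) (hC : 0 ≤ C) (h : ∀ (R : ℕ) (x : ℝ), 0 ≤ x → x ≤ 1 / 4 → ‖S c R x‖ ≤ C * (R : ℝ) ^ b)
    (R : ℕ) (x : ℝ) : ‖S c R x‖ ≤ (1 + (2 : ℝ) ^ (-b)) * kap b * C * (R : ℝ) ^ b := by
  have h1 := od_quarter h2 hc hb hC h R x
  have h3 := od_quarter h2 hc hb hC h (R / 2) (2 * x)
  have h6 := mul_le_mul_of_nonneg_left (half_rpow hb.le R) (mul_nonneg (kap_pos hb).le hC)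
  rw [mu_eq h2]
  refine (norm_sub_le _ _).trans ?_
  calc ‖S (od c) R x‖ + ‖S (od c) (R / 2) (2 * x)‖
      ≤ kap b * C * (R : ℝ) ^ b + kap b * C * ((2 : ℝ) ^ (-b) * (R : ℝ) ^ b) := by linarith
    _ = _ := by ring

end Pool.Agent.Y853.EM
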